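import Pool.Agent.Helper81.PC.ClusterOne

/-!
# Block B4: cluster_two (MP_cf7fa9_pr)
-/

namespace Pool.Agent.Helper55.PC.Cl

open Finset
open scoped Classical

/-- modes of the two-site machine -/
inductive M2 where
  | idle : M2
  | act1 (q : ℕ) : M2
  | srv1 : M2
  | armed : M2
  | act2 (q : ℕ) : M2
  | srv2 : M2
  | bad : M2

section two

variable {ℓ : ℕ} (L : ℕ) (W : Pat) (y y' : ZMod ℓ)

/-- transition of the two-site machine -/
noncomputable def st2 (a : Slot) (e : ZMod ℓ × M2) : ZMod ℓ × M2 :=
  (nx e.1 a, match e.2 with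
    | .idle => if nx e.1 a = y then .act1 0 else .idle
    | .act1 q => if e.1 = y ∧ W.P q a then (if q + 1 = W.n then .srv1 else .act1 (q + 1))
        else if L ≤ dst (nx e.1 a - y) then .armed else .act1 0
    | .srv1 => if L ≤ dst (nx e.1 a - y) then .idle else .srv1
    | .armed => if nx e.1 a = y' then .act2 0 else if nx e.1 a = y then .act1 0 else .armed
    | .act2 q => if e.1 = y' ∧ W.P q a then (if q + 1 = W.n then .srv2 else .act2 (q + 1))
        else if L ≤ dst (nx e.1 a - y') then .bad else .act2 0
    | .srv2 => if L ≤ dst (nx e.1 a - y') then .idle else .srv2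
    | .bad => .bad)

/-- invariant of the two-site machine -/
def I2 (e : ZMod ℓ × M2) : Prop :=
  match e.2 with
  | .idle => e.1 ≠ y
  | .act1 q => dst (e.1 - y) < L ∧ q < W.n ∧ (0 < q → e.1 = y)
  | .srv1 => dst (e.1 - y) < L
  | .armed => e.1 ≠ y ∧ e.1 ≠ y'
  | .act2 q => dst (e.1 - y') < L ∧ q < W.n ∧ (0 < q → e.1 = y')
  | .srv2 => dst (e.1 - y') < L
  | .bad => True

/-- potential of the two-site machine -/
noncomputable def F2 (α : ℝ) (e : ZMod ℓ × M2) : ℝ :=
  match e.2 with
  | .idle => α ^ 2 * gq L (dst (e.1 - y))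
  | .act1 q => α * Ua L W.n α (dst (e.1 - y)) q
  | .srv1 => 0
  | .armed => α
  | .act2 q => Ua L W.n α (dst (e.1 - y')) q
  | .srv2 => 0
  | .bad => 1

variable {L} {W} {y y'}

lemma leave1 (hL : 1 ≤ L) (hℓ : 2 * L + 2 ≤ ℓ) (hy : y' = y ∨ 2 * L ≤ dst (y' - y)) {c : ZMod ℓ}
    {a : Slot} (h1 : dst (c - y) < L) (h2 : L ≤ dst (nx c a - y)) :
    nx c a ≠ y ∧ nx c a ≠ y' := by
  have hne : nx c a ≠ y := by
    intro h; rw [h] at h2; simp [dst] at h2; omega
  refine ⟨hne, fun h => ?_⟩
  rcases hy with hy | hy
  · exact hne (h.trans hy)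
  · have := dst_nx_le (by omega) c y a
    rw [h] at this
    omega

lemma leave2 (hL : 1 ≤ L) (hℓ : 2 * L + 2 ≤ ℓ) (hy : y' = y ∨ 2 * L ≤ dst (y' - y)) {c : ZMod ℓ}
    {a : Slot} (h1 : dst (c - y') < L) (h2 : L ≤ dst (nx c a - y')) :
    L ≤ dst (nx c a - y) := by
  have hNe : NeZero ℓ := ⟨by omega⟩
  rcases hy with hy | hy
  · rw [← hy]; exact h2
  · have h3 := dst_nx_le (by omega) c y' a
    have h4 := dst_add_le (y' - nx c a) (nx c a - y)
    have h5 : dst (y' - nx c a) = dst (nx c a - y') := by
      rw [← dst_neg]; congr 1; ring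
    rw [show y' - nx c a + (nx c a - y) = y' - y by ring, h5] at h4
    omega

lemma ne_of_far (hL : 1 ≤ L) {c y : ZMod ℓ} (h : L ≤ dst (c - y)) : c ≠ y := by
  intro h0; rw [h0] at h; simp [dst] at h; omega

lemma I2_step (hL : 1 ≤ L) (hℓ : 2 * L + 2 ≤ ℓ) (hy : y' = y ∨ 2 * L ≤ dst (y' - y))
    (a : Slot) (e : ZMod ℓ × M2) (h : I2 L W y y' e) : I2 L W y y' (st2 L W y y' a e) := by
  obtain ⟨c, m⟩ := e
  cases m with
  | idle =>
    simp only [I2, st2] at h ⊢
    split_ifs with h1
    · exact ⟨by rw [h1]; simp [dst]; omega, W.pos, fun h => absurd h (lt_irrefl _)⟩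
    · exact h1
  | act1 q =>
    simp only [I2, st2] at h ⊢
    obtain ⟨h1, h2, h3⟩ := h
    by_cases hc : c = y ∧ W.P q a
    · rw [if_pos hc]
      have hmv : nx c a = c := nx_still c (W.still q h2 a hc.2)
      by_cases hq : q + 1 = W.n
      · rw [if_pos hq]
        simp only [hmv]
        exact h1
      · rw [if_neg hq]
        simp only [hmv]
        exact ⟨h1, by omega, fun _ => hc.1⟩
    · rw [if_neg hc]
      by_cases hd : L ≤ dst (nx c a - y)
      · rw [if_pos hd]; exact leave1 hL hℓ hy h1 hd
      · rw [if_neg hd]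
        exact ⟨by simpa using hd, W.pos, fun h => absurd h (lt_irrefl _)⟩
  | srv1 =>
    simp only [I2, st2] at h ⊢
    by_cases hd : L ≤ dst (nx c a - y)
    · rw [if_pos hd]
      exact ne_of_far hL hd
    · rw [if_neg hd]
      show dst (nx c a - y) < L
      simpa using hd
  | armed =>
    simp only [I2, st2] at h ⊢
    by_cases h1 : nx c a = y'
    · rw [if_pos h1]
      exact ⟨by rw [h1]; simp [dst]; omega, W.pos, fun h => absurd h (lt_irrefl _)⟩
    · rw [if_neg h1]
      by_cases h2 : nx c a = y
      · rw [if_pos h2]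
        exact ⟨by rw [h2]; simp [dst]; omega, W.pos, fun h => absurd h (lt_irrefl _)⟩
      · rw [if_neg h2]; exact ⟨h2, h1⟩
  | act2 q =>
    simp only [I2, st2] at h ⊢
    obtain ⟨h1, h2, h3⟩ := h
    by_cases hc : c = y' ∧ W.P q a
    · rw [if_pos hc]
      have hmv : nx c a = c := nx_still c (W.still q h2 a hc.2)
      by_cases hq : q + 1 = W.n
      · rw [if_pos hq]
        simp only [hmv]
        exact h1
      · rw [if_neg hq]
        simp only [hmv]
        exact ⟨h1, by omega, fun _ => hc.1⟩
    · rw [if_neg hc]
      by_cases hd : L ≤ dst (nx c a - y')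
      · rw [if_pos hd]; trivial
      · rw [if_neg hd]
        exact ⟨by simpa using hd, W.pos, fun h => absurd h (lt_irrefl _)⟩
  | srv2 =>
    simp only [I2, st2] at h ⊢
    by_cases hd : L ≤ dst (nx c a - y')
    · rw [if_pos hd]
      exact ne_of_far hL (leave2 hL hℓ hy h hd)
    · rw [if_neg hd]
      show dst (nx c a - y') < L
      simpa using hd
  | bad => trivial

lemma F2_nonneg (hL : 1 ≤ L) {α : ℝ} (hα : 0 ≤ α) (e : ZMod ℓ × M2) (h : I2 L W y y' e) :
    0 ≤ F2 L W y y' α e := by
  obtain ⟨c, m⟩ := e
  have key : ∀ (z : ZMod ℓ) (q : ℕ), (dst (c - z) < L ∧ q < W.n ∧ (0 < q → c = z)) →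
      0 ≤ Ua L W.n α (dst (c - z)) q := by
    intro z q h
    obtain ⟨h1, h2, h3⟩ := h
    simp only [Ua]
    split_ifs with h0
    · exact mul_nonneg hα (by linarith [be_le_one W.pos h2.le])
    · exact lin_nonneg hL hα h1.le
  cases m with
  | idle => exact mul_nonneg (sq_nonneg _) (gq_nonneg _ _)
  | act1 q =>
    simp only [I2] at h
    exact mul_nonneg hα (key y q h)
  | srv1 => exact le_rfl
  | armed => exact hα
  | act2 q =>
    simp only [I2] at h
    exact key y' q h
  | srv2 => exact le_rfl
  | bad => exact zero_le_one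

lemma F2_step (hL : 1 ≤ L) (hℓ : 2 * L + 2 ≤ ℓ) (hy : y' = y ∨ 2 * L ≤ dst (y' - y))
    {α : ℝ} (hα : α = 14 ^ W.n / L) (hα1 : α ≤ 1)
    (e : ZMod ℓ × M2) (h : I2 L W y y' e) :
    (∑ a : Slot, F2 L W y y' α (st2 L W y y' a e)) / 14 ≤
      F2 L W y y' α e + α ^ 2 * (1 / (7 * (L : ℝ) ^ 2)) := by
  have hNe : NeZero ℓ := ⟨by omega⟩
  have hL' : (0 : ℝ) < L := by exact_mod_cast hL
  have hα0 : 0 ≤ α := by rw [hα]; positivity
  have hη : 0 ≤ α ^ 2 * (1 / (7 * (L : ℝ) ^ 2)) := by positivity
  obtain ⟨c, m⟩ := e
  cases m with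
  | idle =>
    refine bump_step hL hℓ c y h _ (α ^ 2) (sq_nonneg _) fun a => ?_
    simp only [st2]
    by_cases h1 : nx c a = y
    · rw [if_pos h1]
      simp only [F2, h1, sub_self]
      simp [Ua, dst_zero', be_zero, gq_zero]; ring
    · rw [if_neg h1]
      simp only [F2]
  | act1 q =>
    simp only [I2] at h
    obtain ⟨h1, h2, h3⟩ := h
    set V : Slot → ℝ := fun a => if c = y ∧ W.P q a then α * (1 - be W.n (q + 1))
      else lin L α (dst (nx c a - y)) with hV
    have hs := act_step hL hℓ W c y q h1 h2 h3 α hα V
      (fun a hc hP => by simp only [hV]; rw [if_pos ⟨hc, hP⟩])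
      (fun a hc => by simp only [hV]; rw [if_neg hc])
    have hFV : ∀ a, F2 L W y y' α (st2 L W y y' a (c, M2.act1 q)) = α * V a := by
      intro a
      simp only [st2, hV]
      by_cases hc : c = y ∧ W.P q a
      · rw [if_pos hc, if_pos hc]
        have hmv : nx c a = c := nx_still c (W.still q h2 a hc.2)
        by_cases hq : q + 1 = W.n
        · rw [if_pos hq]
          simp only [F2]
          rw [hq, be_self W.pos]; ring
        · rw [if_neg hq]
          show α * Ua L W.n α (dst (nx c a - y)) (q + 1) = _
          rw [hmv, hc.1, sub_self, dst_zero', Ua, if_pos rfl]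
      · rw [if_neg hc, if_neg hc]
        by_cases hd : L ≤ dst (nx c a - y)
        · rw [if_pos hd]
          have h4 := dst_nx_le (by omega) c y a
          have h5 : dst (nx c a - y) = L := by omega
          show α = _
          rw [h5, lin_self hL, mul_one]
        · rw [if_neg hd]
          show α * Ua L W.n α (dst (nx c a - y)) 0 = _
          unfold Ua
          split_ifs with h0
          · rw [h0, be_zero, lin_zero]; ring
          · rfl
    rw [sum_congr rfl fun a _ => hFV a, ← mul_sum, mul_div_assoc]
    show α * _ ≤ α * Ua L W.n α (dst (c - y)) q + _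
    have := mul_le_mul_of_nonneg_left hs hα0
    linarith
  | srv1 =>
    have hz : ∀ a, F2 L W y y' α (st2 L W y y' a (c, M2.srv1)) = 0 := by
      intro a
      simp only [st2]
      by_cases hd : L ≤ dst (nx c a - y)
      · rw [if_pos hd]; simp only [F2]; rw [gq_far hL hd, mul_zero]
      · rw [if_neg hd]; simp only [F2]
    rw [Finset.sum_eq_zero fun a _ => hz a]
    simp only [F2]
    linarith
  | armed =>
    have hz : ∀ a, F2 L W y y' α (st2 L W y y' a (c, M2.armed)) ≤ α := by
      intro a
      simp only [st2]
      by_cases h1 : nx c a = y'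
      · rw [if_pos h1]
        show Ua L W.n α (dst (nx c a - y')) 0 ≤ α
        rw [h1, sub_self, dst_zero', Ua, if_pos rfl, be_zero]; linarith
      · rw [if_neg h1]
        by_cases h2 : nx c a = y
        · rw [if_pos h2]
          show α * Ua L W.n α (dst (nx c a - y)) 0 ≤ α
          rw [h2, sub_self, dst_zero', Ua, if_pos rfl, be_zero]; nlinarith
        · rw [if_neg h2]; exact le_rfl
    have hs : ∑ a : Slot, F2 L W y y' α (st2 L W y y' a (c, M2.armed)) ≤ ∑ _a : Slot, α :=
      sum_le_sum fun a _ => hz a
    rw [sum_const, card_univ, card_slot] at hs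
    have h14 : ((14 : ℕ) • α) = 14 * α := by simp
    rw [h14] at hs
    show _ ≤ α + _
    rw [div_le_iff₀ (by norm_num)]
    linarith
  | act2 q =>
    simp only [I2] at h
    obtain ⟨h1, h2, h3⟩ := h
    refine (act_step hL hℓ W c y' q h1 h2 h3 α hα _ ?_ ?_).trans ?_
    · intro a hc hP
      simp only [st2]
      rw [if_pos ⟨hc, hP⟩]
      have hmv : nx c a = c := nx_still c (W.still q h2 a hP)
      by_cases hq : q + 1 = W.n
      · rw [if_pos hq]
        simp only [F2]
        rw [hq, be_self W.pos]; ring
      · rw [if_neg hq]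
        show Ua L W.n α (dst (nx c a - y')) (q + 1) = _
        rw [hmv, hc, sub_self, dst_zero', Ua, if_pos rfl]
    · intro a hc
      simp only [st2]
      rw [if_neg hc]
      by_cases hd : L ≤ dst (nx c a - y')
      · rw [if_pos hd]
        simp only [F2]
        have h4 := dst_nx_le (by omega) c y' a
        have h5 : dst (nx c a - y') = L := by omega
        rw [h5, lin_self hL]
      · rw [if_neg hd]
        simp only [F2, Ua]
        split_ifs with h0
        · rw [h0, be_zero, lin_zero]; ring
        · rfl
    · show Ua L W.n α (dst (c - y')) q ≤ Ua L W.n α (dst (c - y')) q + _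
      linarith
  | srv2 =>
    simp only [I2] at h
    have hz : ∀ a, F2 L W y y' α (st2 L W y y' a (c, M2.srv2)) = 0 := by
      intro a
      simp only [st2]
      by_cases hd : L ≤ dst (nx c a - y')
      · rw [if_pos hd]; simp only [F2]; rw [gq_far hL (leave2 hL hℓ hy h hd), mul_zero]
      · rw [if_neg hd]; simp only [F2]
    rw [Finset.sum_eq_zero fun a _ => hz a]
    simp only [F2]
    linarith
  | bad =>
    have hz : ∀ a, F2 L W y y' α (st2 L W y y' a (c, M2.bad)) = 1 := by
      intro a
      simp only [st2, F2]
    rw [sum_congr rfl fun a _ => hz a, sum_const, card_univ, card_slot]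
    simp only [F2]
    have h14 : ((14 : ℕ) • (1 : ℝ)) / 14 = 1 := by norm_num
    rw [h14]
    linarith

lemma bad_persist2 {w : ℕ → Slot} {d : ZMod ℓ × M2} {s : ℕ}
    (h : (run (st2 L W y y') d w s).2 = M2.bad) {t : ℕ} (hst : s ≤ t) :
    (run (st2 L W y y') d w t).2 = M2.bad := by
  induction t, hst using Nat.le_induction with
  | base => exact h
  | succ t _ ih =>
    show (st2 L W y y' (w t) (run (st2 L W y y') d w t)).2 = M2.bad
    simp only [st2]
    rw [ih]

end two

end Pool.Agent.Helper55.PC.Cl

namespace Pool.Agent.Helper55.PC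

open Finset Cl
open scoped Classical

theorem cluster_two (ℓ L : ℕ) (hL : 1 ≤ L) (hℓ : 2 * L + 2 ≤ ℓ) (W : Pat) (hW : 14 ^ W.n ≤ L)
    (c0 y y' : ZMod ℓ) (hy : y' = y ∨ 2 * L ≤ dst (y' - y)) (t : ℕ) :
    Pr t (fun w => ¬ ∀ s1 sy sm sy' s2 : ℕ, s1 ≤ sy → sy ≤ sm → sm ≤ sy' → sy' ≤ s2 → s2 ≤ t →
      L ≤ dst (c0 + (cur w s1 : ZMod ℓ) - y) → L ≤ dst (c0 + (cur w s1 : ZMod ℓ) - y') →
      c0 + (cur w sy : ZMod ℓ) = y → L ≤ dst (c0 + (cur w sm : ZMod ℓ) - y) →
      c0 + (cur w sy' : ZMod ℓ) = y' → L ≤ dst (c0 + (cur w s2 : ZMod ℓ) - y') →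
      ∃ s, s1 ≤ s ∧ s + W.n ≤ s2 ∧
        (c0 + (cur w s : ZMod ℓ) = y ∨ c0 + (cur w s : ZMod ℓ) = y') ∧ W.occ w s)
    ≤ (14 ^ W.n / L) ^ 2 * (1 + t / (7 * L ^ 2)) := by
  have hNe : NeZero ℓ := ⟨by omega⟩
  have hL' : (0 : ℝ) < L := by exact_mod_cast hL
  set α : ℝ := 14 ^ W.n / L with hα
  have hα0 : 0 < α := by rw [hα]; positivity
  have hα1 : α ≤ 1 := by
    rw [hα, div_le_one hL']; exact_mod_cast hW
  set d0 : ZMod ℓ × M2 := (c0, if c0 = y then M2.act1 0 else M2.idle) with hd0
  have hI0 : I2 L W y y' d0 := by
    rw [hd0]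
    by_cases h : c0 = y
    · rw [if_pos h]
      refine ⟨?_, W.pos, fun h => absurd h (lt_irrefl _)⟩
      simp only [h, sub_self, dst_zero']; omega
    · rw [if_neg h]; exact h
  have hF0 : F2 L W y y' α d0 ≤ α ^ 2 := by
    rw [hd0]
    by_cases h : c0 = y
    · rw [if_pos h]
      simp only [F2, h, sub_self]
      simp [Ua, dst_zero', be_zero]; nlinarith
    · rw [if_neg h]
      simp only [F2]
      have := gq_le_one L (dst (c0 - y))
      have h2 : 0 ≤ α ^ 2 := sq_nonneg _
      nlinarith
  have hI : ∀ w s, I2 L W y y' (run (st2 L W y y') d0 w s) := fun w s =>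
    run_inv hI0 (fun a e he => I2_step hL hℓ hy a e he) s
  -- not bad implies the event
  have hdet : ∀ w, (¬ ∀ s1 sy sm sy' s2 : ℕ, s1 ≤ sy → sy ≤ sm → sm ≤ sy' → sy' ≤ s2 → s2 ≤ t →
      L ≤ dst (c0 + (cur w s1 : ZMod ℓ) - y) → L ≤ dst (c0 + (cur w s1 : ZMod ℓ) - y') →
      c0 + (cur w sy : ZMod ℓ) = y → L ≤ dst (c0 + (cur w sm : ZMod ℓ) - y) →
      c0 + (cur w sy' : ZMod ℓ) = y' → L ≤ dst (c0 + (cur w s2 : ZMod ℓ) - y') →
      ∃ s, s1 ≤ s ∧ s + W.n ≤ s2 ∧
        (c0 + (cur w s : ZMod ℓ) = y ∨ c0 + (cur w s : ZMod ℓ) = y') ∧ W.occ w s) →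
      (run (st2 L W y y') d0 w t).2 = M2.bad := by
    intro w hev
    by_contra hbad
    apply hev
    intro s1 sy sm sy' s2 h1y hym hmy' hy2 h2t hs1 hs1' hsy hsm hsy' hs2
    by_contra hocc
    have hfst : ∀ s, (run (st2 L W y y') d0 w s).1 = c0 + ((cur w s : ℤ) : ZMod ℓ) := fun s =>
      run_fst _ (fun a e => rfl) d0 w s
    have hnb : ∀ s, s ≤ t → (run (st2 L W y y') d0 w s).2 ≠ M2.bad := fun s hs hb =>
      hbad (bad_persist2 hb hs)
    set e : ℕ → ZMod ℓ × M2 := run (st2 L W y y') d0 w with he
    have hsucc : ∀ s, e (s + 1) = st2 L W y y' (w s) (e s) := fun s => rfl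
    -- tracking
    have hP : ∀ s, s1 ≤ s → s ≤ s2 → (e s).2 = M2.idle ∨ (∃ q, (e s).2 = M2.act1 q ∧ s1 + q ≤ s ∧
        (0 < q → (e (s - q)).1 = y) ∧ ∀ i < q, W.P i (w (s - q + i))) ∨ (e s).2 = M2.armed ∨
        (∃ q, (e s).2 = M2.act2 q ∧ s1 + q ≤ s ∧
        (0 < q → (e (s - q)).1 = y') ∧ ∀ i < q, W.P i (w (s - q + i))) := by
      intro s hs
      induction s, hs using Nat.le_induction with
      | base =>
        intro _
        have hIs := hI w s1
        have hns := hnb s1 (by omega)
        rw [← he] at hIs
        have hf := hfst s1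
        rw [← hf] at hs1 hs1'
        rcases hm : (e s1).2 with _ | q | _ | _ | q | _ | _
        · left; rfl
        · exfalso
          have : dst ((e s1).1 - y) < L := by
            unfold I2 at hIs; rw [hm] at hIs; exact hIs.1
          omega
        · exfalso
          have : dst ((e s1).1 - y) < L := by
            unfold I2 at hIs; rw [hm] at hIs; exact hIs
          omega
        · right; right; left; rfl
        · exfalso
          have : dst ((e s1).1 - y') < L := by
            unfold I2 at hIs; rw [hm] at hIs; exact hIs.1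
          omega
        · exfalso
          have : dst ((e s1).1 - y') < L := by
            unfold I2 at hIs; rw [hm] at hIs; exact hIs
          omega
        · exact absurd hm hns
      | succ s hs ih =>
        intro hs2'
        have hnb' := hnb (s + 1) (by omega)
        rw [hsucc] at hnb' ⊢
        have hIs := hI w s
        rw [← he] at hIs
        rcases ih (by omega) with hm | ⟨q, hm, h1, h2, h3⟩ | hm | ⟨q, hm, h1, h2, h3⟩
        · simp only [st2]
          rw [hm]
          by_cases h : nx (e s).1 (w s) = y
          · right; left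
            refine ⟨0, by simp [h], by omega, fun h => absurd h (lt_irrefl _), fun i hi => absurd hi (by omega)⟩
          · left; simp [h]
        · have hq : q < W.n := by
            unfold I2 at hIs; rw [hm] at hIs; exact hIs.2.1
          simp only [st2] at hnb' ⊢
          rw [hm] at hnb' ⊢
          simp only at hnb' ⊢
          by_cases hc : (e s).1 = y ∧ W.P q (w s)
          · rw [if_pos hc]
            have hcy : (e (s - q)).1 = y := by
              rcases Nat.eq_zero_or_pos q with h | h
              · rw [h]; exact hc.1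
              · exact h2 h
            have hall : ∀ i < q + 1, W.P i (w (s - q + i)) := by
              intro i hi
              rcases Nat.lt_succ_iff_lt_or_eq.1 hi with h | h
              · exact h3 i h
              · rw [h, show s - q + q = s by omega]; exact hc.2
            by_cases hqn : q + 1 = W.n
            · exfalso
              apply hocc
              refine ⟨s - q, by omega, by omega, Or.inl ?_, ?_⟩
              · rw [← hfst]; exact hcy
              · intro i hi
                exact hall i (by omega)
            · rw [if_neg hqn]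
              right; left
              refine ⟨q + 1, rfl, by omega, fun _ => ?_, ?_⟩
              · rw [show s + 1 - (q + 1) = s - q by omega]; exact hcy
              · rw [show s + 1 - (q + 1) = s - q by omega]; exact hall
          · rw [if_neg hc] at hnb' ⊢
            by_cases hd : L ≤ dst (nx (e s).1 (w s) - y)
            · rw [if_pos hd]
              right; right; left; rfl
            · rw [if_neg hd]
              right; left
              exact ⟨0, rfl, by omega, fun h => absurd h (lt_irrefl _), fun i hi => absurd hi (by omega)⟩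
        · simp only [st2]
          rw [hm]
          simp only
          by_cases h : nx (e s).1 (w s) = y'
          · rw [if_pos h]
            right; right; right
            exact ⟨0, rfl, by omega, fun h => absurd h (lt_irrefl _), fun i hi => absurd hi (by omega)⟩
          · rw [if_neg h]
            by_cases h' : nx (e s).1 (w s) = y
            · rw [if_pos h']
              right; left
              exact ⟨0, rfl, by omega, fun h => absurd h (lt_irrefl _), fun i hi => absurd hi (by omega)⟩
            · rw [if_neg h']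
              right; right; left; rfl
        · have hq : q < W.n := by
            unfold I2 at hIs; rw [hm] at hIs; exact hIs.2.1
          simp only [st2] at hnb' ⊢
          rw [hm] at hnb' ⊢
          simp only at hnb' ⊢
          by_cases hc : (e s).1 = y' ∧ W.P q (w s)
          · rw [if_pos hc]
            have hcy : (e (s - q)).1 = y' := by
              rcases Nat.eq_zero_or_pos q with h | h
              · rw [h]; exact hc.1
              · exact h2 h
            have hall : ∀ i < q + 1, W.P i (w (s - q + i)) := by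
              intro i hi
              rcases Nat.lt_succ_iff_lt_or_eq.1 hi with h | h
              · exact h3 i h
              · rw [h, show s - q + q = s by omega]; exact hc.2
            by_cases hqn : q + 1 = W.n
            · exfalso
              apply hocc
              refine ⟨s - q, by omega, by omega, Or.inr ?_, ?_⟩
              · rw [← hfst]; exact hcy
              · intro i hi
                exact hall i (by omega)
            · rw [if_neg hqn]
              right; right; right
              refine ⟨q + 1, rfl, by omega, fun _ => ?_, ?_⟩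
              · rw [show s + 1 - (q + 1) = s - q by omega]; exact hcy
              · rw [show s + 1 - (q + 1) = s - q by omega]; exact hall
          · rw [if_neg hc] at hnb' ⊢
            by_cases hd : L ≤ dst (nx (e s).1 (w s) - y')
            · rw [if_pos hd] at hnb'
              exact absurd rfl hnb'
            · rw [if_neg hd]
              right; right; right
              exact ⟨0, rfl, by omega, fun h => absurd h (lt_irrefl _), fun i hi => absurd hi (by omega)⟩
    -- after `sy` never idle
    have hQ : ∀ s, sy ≤ s → s ≤ s2 → (e s).2 ≠ M2.idle := by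
      intro s hs
      induction s, hs using Nat.le_induction with
      | base =>
        intro _ hm
        have hIs := hI w sy
        rw [← he] at hIs
        unfold I2 at hIs
        rw [hm] at hIs
        apply hIs
        rw [hfst]; exact hsy
      | succ s hs ih =>
        intro hs2' hm
        rw [hsucc] at hm
        simp only [st2] at hm
        rcases hP s (by omega) (by omega) with h | ⟨q, h, _⟩ | h | ⟨q, h, _⟩
        · exact ih (by omega) h
        · rw [h] at hm
          simp only at hm
          split_ifs at hm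
        · rw [h] at hm
          simp only at hm
          split_ifs at hm
        · rw [h] at hm
          simp only at hm
          split_ifs at hm
    -- after `sm`, if `y' = y`, never `act1`
    have hR : y' = y → ∀ s, sm ≤ s → s ≤ sy' → ∀ q, (e s).2 ≠ M2.act1 q := by
      intro hyy s hs
      induction s, hs using Nat.le_induction with
      | base =>
        intro _ q hm
        have hIs := hI w sm
        rw [← he] at hIs
        unfold I2 at hIs
        rw [hm] at hIs
        rw [← hfst] at hsm
        have := hIs.1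
        omega
      | succ s hs ih =>
        intro hs2' q' hm
        rw [hsucc] at hm
        simp only [st2] at hm
        rcases hP s (by omega) (by omega) with h | ⟨q, h, _⟩ | h | ⟨q, h, _⟩
        · exact hQ s (by omega) (by omega) h
        · exact ih (by omega) q h
        · rw [h] at hm
          simp only at hm
          split_ifs at hm with h1 h2
          exact h1 (h2.trans hyy.symm)
        · rw [h] at hm
          simp only at hm
          split_ifs at hm
    -- at `sy'` the mode is `act2`
    have hA : ∃ q, (e sy').2 = M2.act2 q := by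
      have hIs := hI w sy'
      rw [← he] at hIs
      unfold I2 at hIs
      have hc : (e sy').1 = y' := by rw [hfst]; exact hsy'
      rcases hP sy' (by omega) (by omega) with h | ⟨q, h, _⟩ | h | ⟨q, h, _⟩
      · exact absurd h (hQ sy' (by omega) (by omega))
      · exfalso
        rcases hy with hyy | hyy
        · exact hR hyy sy' hmy' le_rfl q h
        · rw [h] at hIs
          have := hIs.1
          rw [hc] at this
          omega
      · exfalso
        rw [h] at hIs
        exact hIs.2 hc
      · exact ⟨q, h⟩
    have hS : ∀ s, sy' ≤ s → s ≤ s2 → ∃ q, (e s).2 = M2.act2 q := by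
      intro s hs
      induction s, hs using Nat.le_induction with
      | base => intro _; exact hA
      | succ s hs ih =>
        intro hs2'
        obtain ⟨q, h⟩ := ih (by omega)
        have hnb' := hnb (s + 1) (by omega)
        have hPs := hP (s + 1) (by omega) hs2'
        rw [hsucc] at hnb' hPs ⊢
        simp only [st2] at hnb' hPs ⊢
        rw [h] at hnb' hPs ⊢
        simp only at hnb' hPs ⊢
        by_cases hc : (e s).1 = y' ∧ W.P q (w s)
        · rw [if_pos hc] at hPs ⊢
          by_cases hqn : q + 1 = W.n
          · rw [if_pos hqn] at hPs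
            rcases hPs with h | ⟨q, h, _⟩ | h | ⟨q, h, _⟩ <;> exact absurd h (by simp)
          · rw [if_neg hqn]
            exact ⟨_, rfl⟩
        · rw [if_neg hc] at hnb' ⊢
          by_cases hd : L ≤ dst (nx (e s).1 (w s) - y')
          · rw [if_pos hd] at hnb'
            exact absurd rfl hnb'
          · rw [if_neg hd]
            exact ⟨_, rfl⟩
    obtain ⟨q, h⟩ := hS s2 hy2 le_rfl
    have hIs := hI w s2
    rw [← he] at hIs
    unfold I2 at hIs
    rw [h] at hIs
    rw [← hfst] at hs2
    have := hIs.1
    omega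
  have hEx := Ex_run_le (st2 L W y y') d0 (I2 L W y y') hI0 (fun a e he => I2_step hL hℓ hy a e he)
    (F2 L W y y' α) (α ^ 2 * (1 / (7 * (L : ℝ) ^ 2)))
    (fun e he => F2_step hL hℓ hy hα hα1 e he) t
  calc Pr t _ ≤ Pr t (fun w => (run (st2 L W y y') d0 w t).2 = M2.bad) := Pr_mono hdet
    _ ≤ Ex t (fun w => F2 L W y y' α (run (st2 L W y y') d0 w t)) := by
      unfold Pr
      refine Ex_mono fun w => ?_
      split_ifs with h
      · unfold F2; rw [h]
      · exact F2_nonneg hL hα0.le _ (hI w t)
    _ ≤ α ^ 2 * (1 + t / (7 * (L : ℝ) ^ 2)) := by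
      refine hEx.trans ?_
      have : α ^ 2 * (1 + t / (7 * (L : ℝ) ^ 2)) = α ^ 2 + t * (α ^ 2 * (1 / (7 * (L : ℝ) ^ 2))) := by
        ring
      rw [this]
      linarith

end Pool.Agent.Helper55.PC
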