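import Pool.Agent.Helper81.PC.Geo

/-!
# Block B7: coupling (MP_cf7fa9_pr)
-/

namespace Pool.Agent.Helper55.PC.Cp

open Finset Cl
open scoped Classical

section

variable {R : Type} [Group R] {ℓ : ℕ} (s q : R)

/-- transition on pairs (cursor, finite group element) -/
noncomputable def cst (a : Slot) (x : ZMod ℓ × R) : ZMod ℓ × R := (nx x.1 a, rstep s q a x.2)

/-- averaging operator -/
noncomputable def Av (G : ZMod ℓ × R → ℝ) : ZMod ℓ × R → ℝ :=
  fun x => (∑ a : Slot, G (cst s q a x)) / 14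

lemma Ex_run_eq (t : ℕ) (G : ZMod ℓ × R → ℝ) (x : ZMod ℓ × R) :
    Ex t (fun w => G (run (cst s q) x w t)) = (Av s q)^[t] G x := by
  induction t generalizing G with
  | zero => simp [Ex_zero, run]
  | succ t ih =>
    rw [Function.iterate_succ_apply, ← ih, Ex_succ]
    unfold Av
    congr 1
    funext w
    simp only [run_update]

lemma run_cst (x : ZMod ℓ × R) (w : ℕ → Slot) (t : ℕ) :
    run (cst s q) x w t = (x.1 + ((cur w t : ℤ) : ZMod ℓ), run (rstep s q) x.2 w t) := by
  induction t with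
  | zero => simp [run]
  | succ t ih =>
    show cst s q (w t) (run (cst s q) x w t) = _
    rw [ih, cst, cur_succ]
    ext1
    · simp only [nx]; push_cast; ring
    · rfl

/-- oscillation over the group part, same cursor -/
def Osc (G : ZMod ℓ × R → ℝ) (o : ℝ) : Prop := ∀ c ρ ρ', |G (c, ρ) - G (c, ρ')| ≤ o

lemma sum_abs_le {ι : Type*} [Fintype ι] (f : ι → ℝ) (g : ι → ℝ) (h : ∀ i, |f i| ≤ g i) :
    |∑ i, f i| ≤ ∑ i, g i :=
  (abs_sum_le_sum_abs _ _).trans (sum_le_sum fun i _ => h i)

lemma osc_Av {G : ZMod ℓ × R → ℝ} {o : ℝ} (h : Osc G o) : Osc (Av s q G) o := by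
  intro c ρ ρ'
  unfold Av
  rw [← sub_div, ← sum_sub_distrib, abs_div, abs_of_pos (show (0:ℝ) < 14 by norm_num),
    div_le_iff₀ (by norm_num)]
  refine (sum_abs_le _ (fun _ => o) fun a => h _ _ _).trans ?_
  rw [sum_const, card_univ, card_slot]; simp; linarith

lemma osc_iter {G : ZMod ℓ × R → ℝ} {o : ℝ} (h : Osc G o) (n : ℕ) : Osc ((Av s q)^[n] G) o := by
  induction n with
  | zero => exact h
  | succ n ih => rw [Function.iterate_succ_apply']; exact osc_Av s q ih

/-- the word `l` consists of still letters -/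
def Still (l : List Slot) : Prop := ∀ a ∈ l, mv a = 0

/-- the word `l` acts on the group part -/
noncomputable def actL (l : List Slot) (ρ : R) : R := l.foldl (fun ρ a => rstep s q a ρ) ρ

lemma osc_nonneg {G : ZMod ℓ × R → ℝ} {o : ℝ} (h : Osc G o) : 0 ≤ o :=
  (abs_nonneg _).trans (h 0 1 1)

lemma word_contract (G : ZMod ℓ × R → ℝ) (o : ℝ) (h : Osc G o) (l : List Slot) (hl : Still l)
    (c : ZMod ℓ) (ρ ρ' : R) (hρ : actL s q l ρ' = ρ) :
    |(Av s q)^[l.length] G (c, ρ) - (Av s q)^[l.length] G (c, ρ')| ≤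
      (1 - (14 ^ l.length : ℝ)⁻¹) * o := by
  induction l generalizing ρ' with
  | nil =>
    simp only [actL, List.foldl_nil] at hρ
    subst hρ
    simp
  | cons a l ih =>
    have ho := osc_nonneg h
    have hl' : Still l := fun b hb => hl b (List.mem_cons_of_mem _ hb)
    have ha : mv a = 0 := hl a List.mem_cons_self
    have hρ' : actL s q l (rstep s q a ρ') = ρ := by
      simpa [actL] using hρ
    have hI := ih hl' (rstep s q a ρ') hρ'
    rw [List.length_cons, Function.iterate_succ_apply']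
    set H := (Av s q)^[l.length] G with hH
    have hHo : Osc H o := osc_iter s q h _
    set z : Slot := (0, false) with hz
    have hmz : mv z = 0 := by
      have h1 : ((0, false) : Slot) ≠ (0, true) := by decide
      have h2 : ((0, false) : Slot) ≠ (1, true) := by decide
      simp [hz, mv]
    have hrz : ∀ ρ, rstep s q z ρ = ρ := by
      intro ρ
      have h1 : ((0, false) : Slot) ≠ (4, true) := by decide
      have h2 : ((0, false) : Slot) ≠ (5, true) := by decide
      have h3 : ((0, false) : Slot) ≠ (6, true) := by decide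
      simp [hz, rstep]
    have hsum : ∑ b : Slot, H (cst s q b (c, ρ')) =
        ∑ b : Slot, H (cst s q (Equiv.swap z a b) (c, ρ')) :=
      (Equiv.sum_comp (Equiv.swap z a) fun b => H (cst s q b (c, ρ'))).symm
    unfold Av
    rw [← sub_div, hsum, ← sum_sub_distrib, abs_div, abs_of_pos (show (0:ℝ) < 14 by norm_num),
      div_le_iff₀ (by norm_num)]
    have hterm : ∀ b : Slot, |H (cst s q b (c, ρ)) - H (cst s q (Equiv.swap z a b) (c, ρ'))| ≤
        o - (if b = z then (14 ^ l.length : ℝ)⁻¹ * o else 0) := by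
      intro b
      by_cases hb : b = z
      · rw [if_pos hb, hb, Equiv.swap_apply_left]
        simp only [cst, nx_still c hmz, nx_still c ha, hrz]
        refine hI.trans (le_of_eq (by ring))
      · rw [if_neg hb, sub_zero]
        by_cases hba : b = a
        · rw [hba, Equiv.swap_apply_right]
          simp only [cst, nx_still c hmz, nx_still c ha]
          exact hHo _ _ _
        · rw [Equiv.swap_apply_of_ne_of_ne hb hba]
          exact hHo _ _ _
    refine (sum_abs_le _ _ hterm).trans ?_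
    rw [sum_sub_distrib, sum_ite_eq', sum_const, card_univ, card_slot]
    simp only [mem_univ, if_true]
    have : (14 ^ (l.length + 1) : ℝ)⁻¹ * 14 = (14 ^ l.length : ℝ)⁻¹ := by
      rw [pow_succ]; field_simp
    have h14 : ((14 : ℕ) • o) = 14 * o := by simp
    rw [h14]
    calc 14 * o - (14 ^ l.length : ℝ)⁻¹ * o = 14 * o - ((14 ^ (l.length + 1) : ℝ)⁻¹ * 14) * o := by
          rw [this]
      _ ≤ (1 - (14 ^ (l.length + 1) : ℝ)⁻¹) * o * 14 := by apply le_of_eq; ring

lemma actL_append (l l' : List Slot) (ρ : R) : actL s q (l ++ l') ρ = actL s q l' (actL s q l ρ) := by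
  simp [actL, List.foldl_append]

/-- elements reachable by still words -/
def Good (g : R) : Prop := ∃ l : List Slot, Still l ∧ ∀ ρ, actL s q l ρ = ρ * g

lemma good_one : Good s q 1 := ⟨[], fun a ha => by simp at ha, fun ρ => by simp [actL]⟩

lemma good_mul {g g' : R} (h : Good s q g) (h' : Good s q g') : Good s q (g * g') := by
  obtain ⟨l, hl, hg⟩ := h
  obtain ⟨l', hl', hg'⟩ := h'
  refine ⟨l ++ l', fun a ha => ?_, fun ρ => ?_⟩
  · rcases List.mem_append.1 ha with h | h
    · exact hl a h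
    · exact hl' a h
  · rw [actL_append, hg, hg', mul_assoc]

lemma good_s : Good s q s := by
  refine ⟨[(4, true)], fun a ha => ?_, fun ρ => ?_⟩
  · simp at ha; subst ha
    have h1 : ((4, true) : Slot) ≠ (0, true) := by decide
    have h2 : ((4, true) : Slot) ≠ (1, true) := by decide
    simp [mv, h1, h2]
  · simp [actL, rstep]

lemma good_q : Good s q q := by
  refine ⟨[(5, true)], fun a ha => ?_, fun ρ => ?_⟩
  · simp at ha; subst ha
    have h1 : ((5, true) : Slot) ≠ (0, true) := by decide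
    have h2 : ((5, true) : Slot) ≠ (1, true) := by decide
    simp [mv, h1, h2]
  · have h1 : ((5, true) : Slot) ≠ (4, true) := by decide
    simp [actL, rstep, h1]

lemma good_all [Finite R] (hgen : Subgroup.closure {s, q} = ⊤) (g : R) : Good s q g := by
  have hpow : ∀ g : R, Good s q g → ∀ n : ℕ, Good s q (g ^ n) := by
    intro g hg n
    induction n with
    | zero => simpa using good_one s q
    | succ n ih => rw [pow_succ]; exact good_mul s q ih hg
  have hg : g ∈ Subgroup.closure {s, q} := by rw [hgen]; trivial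
  induction hg using Subgroup.closure_induction with
  | mem x hx =>
    rcases hx with rfl | hx
    · exact good_s _ _
    · rw [Set.mem_singleton_iff] at hx; rw [hx]; exact good_q _ _
  | one => exact good_one _ _
  | mul x y _ _ hx hy => exact good_mul _ _ hx hy
  | inv x _ hx =>
    have h1 : x⁻¹ = x ^ (orderOf x - 1) := by
      have h2 : 0 < orderOf x := orderOf_pos x
      apply inv_eq_of_mul_eq_one_right
      rw [← pow_succ']
      rw [Nat.sub_add_cancel h2, pow_orderOf_eq_one]
    rw [h1]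
    exact hpow x hx _

/-- uniform contraction of the oscillation -/
lemma exists_contract [Finite R] (hgen : Subgroup.closure {s, q} = ⊤) :
    ∃ N : ℕ, ∀ (ℓ : ℕ) (G : ZMod ℓ × R → ℝ) (o : ℝ), Osc G o →
      Osc ((Av s q)^[N] G) ((1 - (14 ^ N : ℝ)⁻¹) * o) := by
  haveI := Fintype.ofFinite R
  choose l hl hg using good_all s q hgen
  refine ⟨∑ g, (l g).length, fun ℓ G o h c ρ ρ' => ?_⟩
  set N := ∑ g, (l g).length with hN
  have hle : (l (ρ'⁻¹ * ρ)).length ≤ N :=
    single_le_sum (f := fun g => (l g).length) (fun _ _ => Nat.zero_le _) (mem_univ _)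
  have h1 := word_contract s q ((Av s q)^[N - (l (ρ'⁻¹ * ρ)).length] G) o (osc_iter s q h _)
    (l (ρ'⁻¹ * ρ)) (hl _) c ρ ρ' (by rw [hg]; group)
  rw [← Function.iterate_add_apply, Nat.add_sub_cancel' hle] at h1
  refine h1.trans ?_
  apply mul_le_mul_of_nonneg_right _ (osc_nonneg h)
  have : (14 ^ N : ℝ)⁻¹ ≤ (14 ^ (l (ρ'⁻¹ * ρ)).length : ℝ)⁻¹ := by
    apply inv_anti₀ (by positivity)
    exact pow_le_pow_right₀ (by norm_num) hle
  linarith

lemma exists_small [Finite R] (hgen : Subgroup.closure {s, q} = ⊤) (ε : ℝ) (hε : 0 < ε) :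
    ∃ n0 : ℕ, ∀ (ℓ : ℕ) (G : ZMod ℓ × R → ℝ), (∀ x, |G x| ≤ 1) →
      ∀ n, n0 ≤ n → Osc ((Av s q)^[n] G) ε := by
  obtain ⟨N, hN⟩ := exists_contract s q hgen
  set θ : ℝ := 1 - (14 ^ N : ℝ)⁻¹ with hθ
  have hθ1 : θ < 1 := by
    have : (0:ℝ) < (14 ^ N : ℝ)⁻¹ := by positivity
    linarith
  have hθ0 : 0 ≤ θ := by
    have : (14 ^ N : ℝ)⁻¹ ≤ 1 := inv_le_one_of_one_le₀ (one_le_pow₀ (by norm_num))
    linarith
  obtain ⟨m, hm⟩ := exists_pow_lt_of_lt_one (show 0 < ε / 2 by positivity) hθ1
  refine ⟨N * m, fun ℓ G hG n hn => ?_⟩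
  have h0 : Osc G 2 := fun c ρ ρ' => by
    have h1 := hG (c, ρ)
    have h2 := hG (c, ρ')
    rw [abs_le] at h1 h2 ⊢
    constructor <;> linarith [h1.1, h1.2, h2.1, h2.2]
  have hk : ∀ m : ℕ, Osc ((Av s q)^[N * m] G) (θ ^ m * 2) := by
    intro m
    induction m with
    | zero => simpa using h0
    | succ m ih =>
      have h1 := hN ℓ _ _ ih
      rw [← Function.iterate_add_apply] at h1
      have e1 : N + N * m = N * (m + 1) := by ring
      have e2 : (1 - (14 ^ N : ℝ)⁻¹) * (θ ^ m * 2) = θ ^ (m + 1) * 2 := by rw [hθ]; ring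
      rw [e1, e2] at h1
      exact h1
  have h1 := osc_iter s q (hk m) (n - N * m)
  rw [← Function.iterate_add_apply, Nat.sub_add_cancel hn] at h1
  intro c ρ ρ'
  refine (h1 c ρ ρ').trans ?_
  linarith

/-! ### meeting of the cursors -/

/-- probability of not having met after `T` steps, difference `D` -/
noncomputable def qq : ℕ → ZMod ℓ → ℝ
  | 0, D => if D = 0 then 0 else 1
  | T + 1, D => if D = 0 then 0 else (2 * qq T (D + 1) + 2 * qq T (D - 1) + 10 * qq T D) / 14

lemma qq_nonneg (T : ℕ) (D : ZMod ℓ) : 0 ≤ qq T D := by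
  induction T generalizing D with
  | zero => unfold qq; split_ifs <;> norm_num
  | succ T ih =>
    unfold qq
    split_ifs
    · exact le_rfl
    · have := ih (D + 1); have := ih (D - 1); have := ih D; positivity

lemma qq_le_one (T : ℕ) (D : ZMod ℓ) : qq T D ≤ 1 := by
  induction T generalizing D with
  | zero => unfold qq; split_ifs <;> norm_num
  | succ T ih =>
    unfold qq
    split_ifs
    · norm_num
    · have := ih (D + 1); have := ih (D - 1); have := ih D
      rw [div_le_one (by norm_num)]; linarith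

/-- expected meeting time -/
noncomputable def hh (D : ZMod ℓ) : ℝ := 7 / 2 * (D.val : ℝ) * ((ℓ : ℝ) - D.val)

lemma hh_nonneg [NeZero ℓ] (D : ZMod ℓ) : 0 ≤ hh D := by
  unfold hh
  have : (D.val : ℝ) ≤ ℓ := by exact_mod_cast (ZMod.val_lt D).le
  have h2 : (0:ℝ) ≤ D.val := by positivity
  have h3 : (0:ℝ) ≤ (ℓ : ℝ) - D.val := by linarith
  positivity

lemma hh_le [NeZero ℓ] (D : ZMod ℓ) : hh D ≤ 7 / 8 * (ℓ : ℝ) ^ 2 := by
  unfold hh
  nlinarith [sq_nonneg ((ℓ : ℝ) - 2 * D.val)]

lemma hh_step (hℓ : 2 ≤ ℓ) (D : ZMod ℓ) (hD : D ≠ 0) :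
    (2 * hh (D + 1) + 2 * hh (D - 1) + 10 * hh D) / 14 = hh D - 1 := by
  have : NeZero ℓ := ⟨by omega⟩
  obtain ⟨n, hn, rfl⟩ := exists_rep D
  have hn0 : n ≠ 0 := by rintro rfl; simp at hD
  have h0 : hh (n : ZMod ℓ) = 7 / 2 * (n : ℝ) * ((ℓ : ℝ) - n) := by
    unfold hh; rw [ZMod.val_natCast_of_lt hn]
  have h1 : hh ((n : ZMod ℓ) + 1) = 7 / 2 * ((n : ℝ) + 1) * ((ℓ : ℝ) - (n + 1)) := by
    by_cases hn' : n + 1 < ℓ
    · have e : ((n : ZMod ℓ) + 1) = ((n + 1 : ℕ) : ZMod ℓ) := by push_cast; ring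
      unfold hh; rw [e, ZMod.val_natCast_of_lt hn']; push_cast; ring
    · have hn'' : n + 1 = ℓ := by omega
      have e : ((n : ZMod ℓ) + 1) = ((n + 1 : ℕ) : ZMod ℓ) := by push_cast; ring
      have e2 : (ℓ : ℝ) = n + 1 := by rw [← hn'']; push_cast; ring
      rw [e, hn'']
      simp [hh]
      rw [e2]; right; ring
  have h2 : hh ((n : ZMod ℓ) - 1) = 7 / 2 * ((n : ℝ) - 1) * ((ℓ : ℝ) - (n - 1)) := by
    have e : ((n : ZMod ℓ) - 1) = ((n - 1 : ℕ) : ZMod ℓ) := by
      rw [Nat.cast_sub (by omega)]; simp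
    unfold hh; rw [e, ZMod.val_natCast_of_lt (by omega), Nat.cast_sub (by omega)]
    push_cast; ring
  rw [h0, h1, h2]
  ring

lemma qq_mul_le (hℓ : 2 ≤ ℓ) (T : ℕ) (D : ZMod ℓ) : (T : ℝ) * qq T D ≤ hh D := by
  have : NeZero ℓ := ⟨by omega⟩
  induction T generalizing D with
  | zero => simpa using hh_nonneg D
  | succ T ih =>
    by_cases hD : D = 0
    · subst hD
      simp [qq, hh]
    · have h1 : qq (T + 1) D = (2 * qq T (D + 1) + 2 * qq T (D - 1) + 10 * qq T D) / 14 := by
        rw [qq, if_neg hD]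
      have h2 := ih (D + 1)
      have h3 := ih (D - 1)
      have h4 := ih D
      have h5 := hh_step hℓ D hD
      have h6 := qq_le_one (T + 1) D
      have h7 : (T : ℝ) * qq (T + 1) D ≤ hh D - 1 := by
        rw [← h5, h1, mul_div_assoc']
        apply div_le_div_of_nonneg_right _ (by norm_num)
        nlinarith
      push_cast
      nlinarith

/-- the flip of the moving letters -/
def fl (a : Slot) : Slot := if a.1 = 0 ∨ a.1 = 1 then (a.1, !a.2) else a

lemma fl_fl (a : Slot) : fl (fl a) = a := by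
  unfold fl
  by_cases h : a.1 = 0 ∨ a.1 = 1
  · rw [if_pos h]; simp [h]
  · rw [if_neg h, if_neg h]

lemma sum_letters_fl (f : ℤ → ℝ) :
    ∑ a : Slot, f (mv a - mv (fl a)) = 2 * f 1 + 2 * f (-1) + 10 * f 0 := by
  rw [Fintype.sum_prod_type]
  simp only [Fintype.sum_bool, Fin.sum_univ_succ, Fin.sum_univ_zero]
  simp only [fl]
  have h1 := mv_zero_true
  have h2 := mv_one_true
  have h3 : mv (0, false) = 0 := by simp [mv]
  have h4 : mv (1, false) = 0 := by simp [mv]
  norm_num
  simp [Fin.ext_iff, h1, h2, h3, h4]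
  ring

end

end Pool.Agent.Helper55.PC.Cp

namespace Pool.Agent.Helper55.PC

open Finset Cl Cp
open scoped Classical

theorem coupling {R : Type} [Group R] [Fintype R] (s q : R)
    (hgen : Subgroup.closure {s, q} = ⊤) (ε : ℝ) (hε : 0 < ε) :
    ∃ T0 : ℕ, ∀ ℓ : ℕ, 2 ≤ ℓ → ∀ t : ℕ, T0 ≤ t → ∀ F : ZMod ℓ → R → ℝ, (∀ c ρ, |F c ρ| ≤ 1) →
      ∀ c c' ρ ρ',
      |Ex t (fun w => F (c + (cur w t : ZMod ℓ)) (run (rstep s q) ρ w t)) -
        Ex t (fun w => F (c' + (cur w t : ZMod ℓ)) (run (rstep s q) ρ' w t))|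
      ≤ 6 * (ℓ : ℝ) ^ 2 / t + ε := by
  obtain ⟨n0, hn0⟩ := exists_small s q hgen ε hε
  refine ⟨2 * n0 + 2, fun ℓ hℓ t ht F hF c c' ρ ρ' => ?_⟩
  have hNe : NeZero ℓ := ⟨by omega⟩
  set G : ZMod ℓ × R → ℝ := fun x => F x.1 x.2 with hG
  have hG1 : ∀ x, |G x| ≤ 1 := fun x => hF _ _
  have hEx : ∀ c ρ, Ex t (fun w => F (c + (cur w t : ZMod ℓ)) (run (rstep s q) ρ w t)) =
      (Av s q)^[t] G (c, ρ) := by
    intro c ρ
    rw [← Ex_run_eq]
    congr 1
    funext w
    rw [run_cst]
  rw [hEx, hEx]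
  -- phase 1
  have key : ∀ T n : ℕ, n0 ≤ n → ∀ c c' ρ ρ',
      |(Av s q)^[T + n] G (c, ρ) - (Av s q)^[T + n] G (c', ρ')| ≤ ε + 2 * qq T (c - c') := by
    intro T n hn
    induction T with
    | zero =>
      intro c c' ρ ρ'
      by_cases hc : c = c'
      · subst hc
        have := hn0 ℓ G hG1 (0 + n) (by omega) c ρ ρ'
        have h2 := qq_nonneg 0 (c - c)
        linarith
      · have hq : qq 0 (c - c') = 1 := by
          rw [qq, if_neg (sub_ne_zero.2 hc)]
        rw [hq]
        have hb : ∀ m x, |(Av s q)^[m] G x| ≤ 1 := by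
          intro m
          induction m with
          | zero => exact hG1
          | succ m ih =>
            intro x
            rw [Function.iterate_succ_apply']
            unfold Av
            rw [abs_div, abs_of_pos (show (0:ℝ) < 14 by norm_num), div_le_one (by norm_num)]
            refine (sum_abs_le _ (fun _ => 1) fun a => ih _).trans ?_
            rw [sum_const, card_univ, card_slot]; simp
        have h1 := hb (0 + n) (c, ρ)
        have h2 := hb (0 + n) (c', ρ')
        rw [abs_le] at h1 h2 ⊢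
        constructor <;> linarith [h1.1, h1.2, h2.1, h2.2]
    | succ T ih =>
      intro c c' ρ ρ'
      by_cases hc : c = c'
      · subst hc
        have := hn0 ℓ G hG1 (T + 1 + n) (by omega) c ρ ρ'
        have h2 := qq_nonneg (T + 1) (c - c)
        linarith
      · have hq : qq (T + 1) (c - c') = (2 * qq T (c - c' + 1) + 2 * qq T (c - c' - 1) +
            10 * qq T (c - c')) / 14 := by
          rw [qq, if_neg (sub_ne_zero.2 hc)]
        rw [show T + 1 + n = (T + n) + 1 by ring, Function.iterate_succ_apply']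
        set H := (Av s q)^[T + n] G with hH
        have hsum : ∑ b : Slot, H (cst s q b (c', ρ')) = ∑ b : Slot, H (cst s q (fl b) (c', ρ')) :=
          (Equiv.sum_comp (Function.Involutive.toPerm fl fl_fl)
            fun b => H (cst s q b (c', ρ'))).symm
        unfold Av
        rw [← sub_div, hsum, ← sum_sub_distrib, abs_div,
          abs_of_pos (show (0:ℝ) < 14 by norm_num), div_le_iff₀ (by norm_num)]
        have hterm : ∀ b : Slot, |H (cst s q b (c, ρ)) - H (cst s q (fl b) (c', ρ'))| ≤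
            ε + 2 * qq T (c - c' + ((mv b - mv (fl b) : ℤ) : ZMod ℓ)) := by
          intro b
          have h1 := ih (nx c b) (nx c' (fl b)) (rstep s q b ρ) (rstep s q (fl b) ρ')
          have h2 : nx c b - nx c' (fl b) = c - c' + ((mv b - mv (fl b) : ℤ) : ZMod ℓ) := by
            unfold nx; push_cast; ring
          rw [h2] at h1
          exact h1
        refine (sum_abs_le _ _ hterm).trans ?_
        rw [sum_add_distrib, sum_letters_fl (fun z => 2 * qq T (c - c' + (z : ZMod ℓ))), hq,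
          sum_const, card_univ, card_slot]
        simp only [Int.cast_one, Int.cast_neg, Int.cast_zero, add_zero, nsmul_eq_mul]
        rw [← sub_eq_add_neg]
        apply le_of_eq
        push_cast
        ring
  have hT := key (t / 2) (t - t / 2) (by omega) c c' ρ ρ'
  rw [Nat.add_sub_cancel' (Nat.div_le_self t 2)] at hT
  refine hT.trans ?_
  have hq1 := qq_mul_le hℓ (t / 2) (c - c')
  have hh1 := hh_le (c - c')
  have ht3 : (t : ℝ) ≤ 3 * ((t / 2 : ℕ) : ℝ) := by
    have : t ≤ 3 * (t / 2) := by omega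
    exact_mod_cast this
  have htpos : (0 : ℝ) < t := by
    have : 0 < t := by omega
    exact_mod_cast this
  have hq0 := qq_nonneg (t / 2) (c - c')
  have h1 : (t : ℝ) * qq (t / 2) (c - c') ≤ 3 * (7 / 8 * (ℓ : ℝ) ^ 2) := by nlinarith
  have h2 : 2 * qq (t / 2) (c - c') ≤ 6 * (ℓ : ℝ) ^ 2 / t := by
    rw [le_div_iff₀ htpos]
    nlinarith [sq_nonneg (ℓ : ℝ)]
  linarith

end Pool.Agent.Helper55.PC
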