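import Pool.Agent.Helper55.PC.Events
import Pool.Agent.Helper95.PC.Kill

/-!
# Block C5: eigen_le (MP_cf7fa9_pr)
-/

namespace Pool.Agent.Helper55.PC.Eg

open Finset Filter
open scoped Topology ENNReal Classical

variable {k r L : ℕ} [NeZero k] [NeZero L] {R U : Type} [Group R] [Fintype R]
    [AddCommGroup U] [Fintype U] [DistribMulAction R U] {s q : R} {u : Idx k r → U} {W : Pat}

lemma zmod2_neg (a : ZMod 2) : -a = a := by revert a; decide

lemma lamp_rs {ℓ : ℕ} {i : Fin 7} (h0 : i ≠ 0) (h1 : i ≠ 1) (h2 : i ≠ 2) (η : ℕ → Bool)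
    (p0 : ZMod ℓ → ZMod 2) (c0 : ZMod ℓ) (w : ℕ → Slot) (t : ℕ) :
    lamp p0 c0 (rs i η w) t = lamp p0 c0 w t := by
  induction t with
  | zero => rfl
  | succ t ih =>
    funext y
    simp only [lamp]
    rw [ih, cur_rs h0 h1]
    have : (rs i η w t = (2, true)) ↔ (w t = (2, true)) := by
      by_cases h : (w t).1 = i
      · have h3 : (rs i η w t).1 = i := by simpa using h
        constructor
        · intro h4; rw [h4] at h3; exact absurd h3.symm h2
        · intro h4; rw [h4] at h; exact absurd h.symm h2
      · rw [rs_of_ne η h]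
    simp only [this]

lemma rstep_rs {i : Fin 7} (h4 : i ≠ 4) (h5 : i ≠ 5) (h6 : i ≠ 6) (η : ℕ → Bool)
    (ρ0 : R) (w : ℕ → Slot) (t : ℕ) :
    run (rstep s q) ρ0 (rs i η w) t = run (rstep s q) ρ0 w t := by
  induction t with
  | zero => rfl
  | succ t ih =>
    simp only [run]
    rw [ih]
    by_cases h : (w t).1 = i
    · have h3 : (rs i η w t).1 = i := by simpa using h
      have e : ∀ (a : Slot) (ρ : R), a.1 = i → rstep s q a ρ = ρ := by
        intro a ρ ha
        unfold rstep
        rw [if_neg, if_neg, if_neg]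
        · rintro rfl; exact h6 ha.symm
        · rintro rfl; exact h5 ha.symm
        · rintro rfl; exact h4 ha.symm
      rw [e _ _ h3, e _ _ h]
    · rw [rs_of_ne η h]

lemma inc_rs (η : ℕ → Bool) (p0 : Site k L → ZMod 2) (c0 : Site k L) (ρ0 : R) (w : ℕ → Slot)
    (t : ℕ) : inc s q u p0 c0 ρ0 (rs 3 η w) t = inc s q u p0 c0 ρ0 w t := by
  unfold inc
  rw [lamp_rs (by decide) (by decide) (by decide), cur_rs (by decide) (by decide),
    rstep_rs (by decide) (by decide) (by decide)]

lemma lamp_eq {ℓ : ℕ} (p0 : ZMod ℓ → ZMod 2) (c0 : ZMod ℓ) (w : ℕ → Slot) (t : ℕ) :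
    lamp p0 c0 w t = p0 + ∑ i ∈ range t,
      (if w i = (2, true) then Pi.single (c0 + (cur w i : ZMod ℓ)) 1 else 0) := by
  induction t with
  | zero => simp [lamp]
  | succ t ih =>
    rw [sum_range_succ, ← add_assoc, ← ih]
    funext y
    simp only [lamp, Pi.add_apply]
    congr 1
    by_cases h : w t = (2, true)
    · simp [h, Pi.single_apply, eq_comm]
    · simp [h]

/-- bound from a killing identity -/
lemma bound_of_kill {K : Type*} [Fintype K] [Nonempty K] (t0 : ℕ) (δ lam : ℝ)
    (g : K → ℝ) (hg : g ≠ 0) (κ : K → (ℕ → Slot) → K) (B : K → (ℕ → Slot) → Prop)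
    (hid : ∀ x, lam ^ t0 * g x = Ex t0 (fun w => (if B x w then 0 else 1) * g (κ x w)))
    (hB : ∀ x, Pr t0 (fun w => ¬ B x w) ≤ 1 - δ) : |lam| ^ t0 ≤ 1 - δ := by
  obtain ⟨x, hx⟩ := Finite.exists_max (fun x => |g x|)
  have hpos : 0 < |g x| := by
    by_contra h
    apply hg
    funext y
    have := hx y
    have h2 : |g y| ≤ 0 := by
      linarith [abs_nonneg (g x)]
    exact abs_nonpos_iff.1 h2
  have h1 : |lam| ^ t0 * |g x| ≤ (1 - δ) * |g x| := by
    rw [← abs_pow, ← abs_mul, hid]
    refine (abs_Ex_le _).trans ?_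
    calc Ex t0 (fun w => |(if B x w then (0:ℝ) else 1) * g (κ x w)|)
        ≤ Ex t0 (fun w => (if ¬ B x w then 1 else 0) * |g x|) := by
          refine Ex_mono fun w => ?_
          by_cases hb : B x w
          · simp [hb]
          · simp only [hb, if_false, not_false_eq_true, if_true, one_mul]
            exact hx _
      _ = Pr t0 (fun w => ¬ B x w) * |g x| := by
        rw [Ex_mul_right]
        unfold Pr
        congr 2
        funext w
        by_cases hb : B x w <;> simp [hb]
      _ ≤ (1 - δ) * |g x| := mul_le_mul_of_nonneg_right (hB x) (abs_nonneg _)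
  exact le_of_mul_le_mul_right h1 hpos

end Pool.Agent.Helper55.PC.Eg

namespace Pool.Agent.Helper55.PC

open Finset Filter Eg
open scoped Topology ENNReal Classical

section
variable {k r L : ℕ} [NeZero k] [NeZero L] {R U : Type} [Group R] [Fintype R]
    [AddCommGroup U] [Fintype U] [DistribMulAction R U] {s q : R} {u : Idx k r → U} {W : Pat}

theorem eigen_le (hG : GW s q u W) (t0 : ℕ) (δ : ℝ) (hδ : 0 < δ) (hδ1 : δ ≤ 1 / 2)
    (hkill : ∀ (p0 : Site k L → ZMod 2) (c0 : Site k L) (ρ0 : R)
      (ψ : (Site k L × Lbl k r → U) →+ ZMod 2), ψ ≠ 0 →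
      Pr t0 (fun w => ¬ Killed s q u p0 c0 ρ0 ψ t0 w) ≤ 1 - δ)
    (hfresh : ∀ (c0 : Site k L) (φ : (Site k L → ZMod 2) →+ ZMod 2), φ ≠ 0 →
      Pr t0 (fun w => ¬ Fresh c0 φ t0 w) ≤ 1 - δ)
    (hcpl : ∀ F : Site k L → R → ℝ, (∀ c ρ, |F c ρ| ≤ 1) → ∀ c c' ρ ρ',
      |Ex t0 (fun w => F (c + (cur w t0 : Site k L)) (run (rstep s q) ρ w t0)) -
        Ex t0 (fun w => F (c' + (cur w t0 : Site k L)) (run (rstep s q) ρ' w t0))| ≤ 1 - δ)
    (lam : ℝ) (f : St k r L R U → ℝ) (hf : f ≠ 0) (hf0 : ∑ x, f x = 0)
    (heig : ∀ (t : ℕ) (x : St k r L R U), Ex t (fun w => f (run (step s q u) x w t)) = lam ^ t * f x) :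
    lam ≤ 1 - δ / t0 := by
  -- the main bound
  have main : |lam| ^ t0 ≤ 1 - δ := by
    by_cases hψ : ∃ ψ : (Site k L × Lbl k r → U) →+ ZMod 2, ψ ≠ 0 ∧
        (fun x : (Site k L → ZMod 2) × Site k L × R => ∑ h, sg (ψ h) * f (h, x)) ≠ 0
    · obtain ⟨ψ, hψ0, hg⟩ := hψ
      refine bound_of_kill t0 δ lam _ hg
        (fun x w => (lamp x.1 x.2.1 w t0, x.2.1 + (cur w t0 : Site k L), run (rstep s q) x.2.2 w t0))
        (fun x w => Killed s q u x.1 x.2.1 x.2.2 ψ t0 w) ?_ (fun x => hkill _ _ _ ψ hψ0)
      intro x
      rw [mul_sum]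
      have h1 : ∀ h : (Site k L × Lbl k r → U), lam ^ t0 * (sg (ψ h) * f (h, x)) =
          Ex t0 (fun w => sg (ψ h) * f (run (step s q u) (h, x) w t0)) := by
        intro h
        rw [Ex_mul_left, heig]; ring
      rw [sum_congr rfl fun h _ => h1 h, ← Ex_sum]
      have h2 : ∀ w, ∑ h : (Site k L × Lbl k r → U), sg (ψ h) * f (run (step s q u) (h, x) w t0) =
          sg (∑ i ∈ range t0, if w i = (3, true) then ψ (inc s q u x.1 x.2.1 x.2.2 w i) else 0) *
          ∑ h, sg (ψ h) * f (h, (lamp x.1 x.2.1 w t0, x.2.1 + (cur w t0 : Site k L),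
            run (rstep s q) x.2.2 w t0)) := by
        intro w
        set Δ : Site k L × Lbl k r → U := ∑ i ∈ range t0,
          (if w i = (3, true) then inc s q u x.1 x.2.1 x.2.2 w i else 0) with hΔ
        have hψΔ : ψ Δ = ∑ i ∈ range t0,
            if w i = (3, true) then ψ (inc s q u x.1 x.2.1 x.2.2 w i) else 0 := by
          rw [hΔ, map_sum]
          refine sum_congr rfl fun i _ => ?_
          split_ifs <;> simp
        rw [← hψΔ, mul_sum, ← Equiv.sum_comp (Equiv.addRight Δ)
          (fun h => sg (ψ Δ) * (sg (ψ h) * f (h, (lamp x.1 x.2.1 w t0,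
            x.2.1 + (cur w t0 : Site k L), run (rstep s q) x.2.2 w t0))))]
        refine sum_congr rfl fun h _ => ?_
        rw [run_step]
        simp only [Equiv.coe_addRight, map_add, sg_add]
        rw [show sg (ψ Δ) * (sg (ψ h) * sg (ψ Δ) * f (h + Δ, lamp x.1 x.2.1 w t0,
            x.2.1 + ((cur w t0 : ℤ) : Site k L), run (rstep s q) x.2.2 w t0)) =
            (sg (ψ Δ) * sg (ψ Δ)) * (sg (ψ h) * f (h + Δ, lamp x.1 x.2.1 w t0,
            x.2.1 + ((cur w t0 : ℤ) : Site k L), run (rstep s q) x.2.2 w t0)) by ring,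
          sg_mul_self, one_mul]
      simp only [h2]
      rw [kill t0 3 (by decide) (fun i w => ψ (inc s q u x.1 x.2.1 x.2.2 w i))
        (fun i η w => by rw [inc_rs]) (fun w => ∑ h, sg (ψ h) * f (h, (lamp x.1 x.2.1 w t0,
            x.2.1 + (cur w t0 : Site k L), run (rstep s q) x.2.2 w t0))) (fun η w => by
          rw [lamp_rs (by decide) (by decide) (by decide), cur_rs (by decide) (by decide),
            rstep_rs (by decide) (by decide) (by decide)])]
      congr 1
      funext w
      congr 1
      exact if_congr Iff.rfl rfl rfl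
    · push Not at hψ
      -- f does not depend on h
      have hconst : ∀ h h' : (Site k L × Lbl k r → U), ∀ x, f (h, x) = f (h', x) := by
        intro h h' x
        refine const_of_chars (V := Site k L × Lbl k r → U)
          (fun v => by funext z; exact hG.two _) (fun h => f (h, x)) ?_ h h'
        intro χ hχ
        exact congrFun (hψ χ hχ) x
      by_cases hφ : ∃ φ : (Site k L → ZMod 2) →+ ZMod 2, φ ≠ 0 ∧
          (fun x : Site k L × R => ∑ p, sg (φ p) * f (0, p, x)) ≠ 0
      · obtain ⟨φ, hφ0, hg⟩ := hφ
        refine bound_of_kill t0 δ lam _ hg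
          (fun x w => (x.1 + (cur w t0 : Site k L), run (rstep s q) x.2 w t0))
          (fun x w => Fresh x.1 φ t0 w) ?_ (fun x => hfresh _ φ hφ0)
        intro x
        rw [mul_sum]
        have h1 : ∀ p : (Site k L → ZMod 2), lam ^ t0 * (sg (φ p) * f (0, p, x)) =
            Ex t0 (fun w => sg (φ p) * f (run (step s q u) (0, p, x) w t0)) := by
          intro p
          rw [Ex_mul_left, heig]; ring
        rw [sum_congr rfl fun p _ => h1 p, ← Ex_sum]
        have h2 : ∀ w, ∑ p : (Site k L → ZMod 2), sg (φ p) * f (run (step s q u) (0, p, x) w t0) =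
            sg (∑ i ∈ range t0, if w i = (2, true) then
              φ (Pi.single (x.1 + (cur w i : Site k L)) 1) else 0) *
            ∑ p, sg (φ p) * f (0, p, (x.1 + (cur w t0 : Site k L),
              run (rstep s q) x.2 w t0)) := by
          intro w
          set Δ : Site k L → ZMod 2 := ∑ i ∈ range t0,
            (if w i = (2, true) then Pi.single (x.1 + (cur w i : Site k L)) 1 else 0) with hΔ
          have hφΔ : φ Δ = ∑ i ∈ range t0,
              if w i = (2, true) then φ (Pi.single (x.1 + (cur w i : Site k L)) 1) else 0 := by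
            rw [hΔ, map_sum]
            refine sum_congr rfl fun i _ => ?_
            split_ifs <;> simp
          rw [← hφΔ, mul_sum, ← Equiv.sum_comp (Equiv.addRight Δ)
            (fun p => sg (φ Δ) * (sg (φ p) * f (0, p, (x.1 + (cur w t0 : Site k L),
              run (rstep s q) x.2 w t0))))]
          refine sum_congr rfl fun p _ => ?_
          rw [run_step]
          simp only [Equiv.coe_addRight, map_add, sg_add]
          rw [lamp_eq, ← hΔ, hconst _ 0]
          rw [show sg (φ Δ) * (sg (φ p) * sg (φ Δ) * f (0, p + Δ,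
              x.1 + ((cur w t0 : ℤ) : Site k L), run (rstep s q) x.2 w t0)) =
              (sg (φ Δ) * sg (φ Δ)) * (sg (φ p) * f (0, p + Δ,
              x.1 + ((cur w t0 : ℤ) : Site k L), run (rstep s q) x.2 w t0)) by ring,
            sg_mul_self, one_mul]
        simp only [h2]
        rw [kill t0 2 (by decide) (fun i w => φ (Pi.single (x.1 + (cur w i : Site k L)) 1))
          (fun i η w => by rw [cur_rs (by decide) (by decide)])
          (fun w => ∑ p, sg (φ p) * f (0, p, (x.1 + (cur w t0 : Site k L),
              run (rstep s q) x.2 w t0))) (fun η w => by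
            rw [cur_rs (by decide) (by decide), rstep_rs (by decide) (by decide) (by decide)])]
        congr 1
        funext w
        congr 1
        exact if_congr Iff.rfl rfl rfl
      · push Not at hφ
        have hconst2 : ∀ (h : Site k L × Lbl k r → U) (p : Site k L → ZMod 2) (x : Site k L × R),
            f (h, p, x) = f (0, 0, x) := by
          intro h p x
          rw [hconst h 0]
          refine const_of_chars (V := Site k L → ZMod 2)
            (fun v => by funext z; exact CharTwo.add_self_eq_zero _) (fun p => f (0, p, x)) ?_ p 0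
          intro χ hχ
          exact congrFun (hφ χ hχ) x
        set g : Site k L × R → ℝ := fun x => f (0, 0, x) with hg
        have hg0 : g ≠ 0 := by
          intro h0
          apply hf
          funext x
          obtain ⟨h, p, x⟩ := x
          rw [hconst2]
          exact congrFun h0 x
        have hsum : ∑ x, g x = 0 := by
          have h1 : ∑ x : St k r L R U, f x = (Fintype.card (Site k L × Lbl k r → U) : ℝ) *
              ((Fintype.card (Site k L → ZMod 2) : ℝ) * ∑ x, g x) := by
            rw [Fintype.sum_prod_type]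
            have h2 : ∀ h : (Site k L × Lbl k r → U), ∑ y : (Site k L → ZMod 2) × Site k L × R,
                f (h, y) = (Fintype.card (Site k L → ZMod 2) : ℝ) * ∑ x, g x := by
              intro h
              rw [Fintype.sum_prod_type]
              have h3 : ∀ p : (Site k L → ZMod 2), ∑ y : Site k L × R, f (h, p, y) = ∑ x, g x :=
                fun p => sum_congr rfl fun y _ => hconst2 h p y
              rw [sum_congr rfl fun p _ => h3 p, sum_const, card_univ, nsmul_eq_mul]
            rw [sum_congr rfl fun h _ => h2 h, sum_const, card_univ, nsmul_eq_mul]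
          rw [hf0] at h1
          have h4 : (Fintype.card (Site k L × Lbl k r → U) : ℝ) ≠ 0 := by
            exact_mod_cast Fintype.card_ne_zero
          have h5 : (Fintype.card (Site k L → ZMod 2) : ℝ) ≠ 0 := by
            exact_mod_cast Fintype.card_ne_zero
          have h6 := h1.symm
          rcases mul_eq_zero.1 h6 with h | h
          · exact absurd h h4
          · rcases mul_eq_zero.1 h with h | h
            · exact absurd h h5
            · exact h
        obtain ⟨x, hx⟩ := Finite.exists_max (fun x => |g x|)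
        have hpos : 0 < |g x| := by
          by_contra h
          apply hg0
          funext y
          have := hx y
          have h2 : |g y| ≤ 0 := by
            linarith [abs_nonneg (g x)]
          exact abs_nonpos_iff.1 h2
        -- a point where g has the other sign
        obtain ⟨x', hx'⟩ : ∃ x', g x * g x' ≤ 0 := by
          by_contra hcon
          push Not at hcon
          have h1 : 0 < ∑ x', g x * g x' := sum_pos (fun x' _ => hcon x') ⟨x, mem_univ _⟩
          rw [← mul_sum, hsum, mul_zero] at h1
          exact lt_irrefl _ h1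
        have hbig : |g x| ≤ |g x - g x'| := by
          rcases le_total 0 (g x) with h | h
          · have h3 : g x' ≤ 0 := by
              by_contra h4
              push Not at h4
              have h5 : 0 < g x := lt_of_le_of_ne h (fun h6 => by rw [← h6] at hpos; simp at hpos)
              nlinarith
            rw [abs_of_nonneg h, abs_of_nonneg (by linarith)]; linarith
          · have h3 : 0 ≤ g x' := by
              by_contra h4
              push Not at h4
              have h5 : g x < 0 := lt_of_le_of_ne h (fun h6 => by rw [h6] at hpos; simp at hpos)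
              nlinarith
            rw [abs_of_nonpos h, abs_of_nonpos (by linarith)]; linarith
        have hE : ∀ x : Site k L × R, Ex t0 (fun w => g (x.1 + (cur w t0 : Site k L),
            run (rstep s q) x.2 w t0)) = lam ^ t0 * g x := by
          intro x
          rw [← heig t0 (0, 0, x)]
          congr 1
          funext w
          rw [run_step, hconst2]
        have hc := hcpl (fun c ρ => g (c, ρ) / |g x|) (fun c ρ => by
          rw [abs_div, abs_abs, div_le_one hpos]; exact hx (c, ρ)) x.1 x'.1 x.2 x'.2
        have e1 : ∀ y : Site k L × R, Ex t0 (fun w => g (y.1 + (cur w t0 : Site k L),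
            run (rstep s q) y.2 w t0) / |g x|) = lam ^ t0 * g y / |g x| := by
          intro y
          rw [← hE y, div_eq_mul_inv, ← Ex_mul_right]
          rfl
        rw [e1 x, e1 x', ← sub_div, ← mul_sub, abs_div, abs_abs, abs_mul, abs_pow,
          div_le_iff₀ hpos] at hc
        have h7 : |lam| ^ t0 * |g x| ≤ (1 - δ) * |g x| :=
          (mul_le_mul_of_nonneg_left hbig (by positivity)).trans hc
        exact le_of_mul_le_mul_right h7 hpos
  -- conclusion
  by_contra hcon
  push Not at hcon
  rcases Nat.eq_zero_or_pos t0 with h0 | h0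
  · rw [h0] at main
    simp at main
    linarith
  · have ht : (0 : ℝ) < t0 := by exact_mod_cast h0
    have ht1 : (1 : ℝ) ≤ t0 := by exact_mod_cast h0
    have h1 : δ / t0 ≤ δ := div_le_self hδ.le ht1
    have h2 : 0 ≤ 1 - δ / t0 := by linarith
    have h3 : (1 - δ / t0) ^ t0 < lam ^ t0 := pow_lt_pow_left₀ hcon h2 (by omega)
    have h4 : 1 + (t0 : ℝ) * (-(δ / t0)) ≤ (1 + (-(δ / t0))) ^ t0 :=
      one_add_mul_le_pow (by linarith) t0
    have h5 : 1 + (t0 : ℝ) * (-(δ / t0)) = 1 - δ := by field_simp; ring
    have h6 : (1 + (-(δ / t0))) = 1 - δ / t0 := by ring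
    rw [h5, h6] at h4
    have h7 : lam ^ t0 ≤ |lam| ^ t0 := by
      rw [← abs_pow]; exact le_abs_self _
    linarith

end

end Pool.Agent.Helper55.PC
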