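import Pool.Agent.Helper81.PC.Geo

/-!
# Block B3: cluster_one (MP_cf7fa9_pr)
-/

namespace Pool.Agent.Helper55.PC.Cl

open Finset
open scoped Classical

lemma run_fst {ℓ : ℕ} {D : Type*} (st : Slot → ZMod ℓ × D → ZMod ℓ × D)
    (hst : ∀ a e, (st a e).1 = nx e.1 a) (d : ZMod ℓ × D) (w : ℕ → Slot) (s : ℕ) :
    (run st d w s).1 = d.1 + ((cur w s : ℤ) : ZMod ℓ) := by
  induction s with
  | zero => simp [run]
  | succ s ih =>
    show (st (w s) (run st d w s)).1 = _
    rw [hst, ih, cur_succ, nx]
    push_cast
    ring

/-- modes of the one-site machine -/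
inductive M1 where
  | idle : M1
  | act (q : ℕ) : M1
  | srv : M1
  | bad : M1

section one

variable {ℓ : ℕ} (L : ℕ) (W : Pat) (y : ZMod ℓ)

/-- transition of the one-site machine -/
noncomputable def st1 (a : Slot) (e : ZMod ℓ × M1) : ZMod ℓ × M1 :=
  (nx e.1 a, match e.2 with
    | .idle => if nx e.1 a = y then .act 0 else .idle
    | .act q => if e.1 = y ∧ W.P q a then (if q + 1 = W.n then .srv else .act (q + 1))
        else if L ≤ dst (nx e.1 a - y) then .bad else .act 0
    | .srv => if L ≤ dst (nx e.1 a - y) then .idle else .srv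
    | .bad => .bad)

/-- invariant of the one-site machine -/
def I1 (e : ZMod ℓ × M1) : Prop :=
  match e.2 with
  | .idle => e.1 ≠ y
  | .act q => dst (e.1 - y) < L ∧ q < W.n ∧ (0 < q → e.1 = y)
  | .srv => dst (e.1 - y) < L
  | .bad => True

/-- potential of the one-site machine -/
noncomputable def F1 (α : ℝ) (e : ZMod ℓ × M1) : ℝ :=
  match e.2 with
  | .idle => α * gq L (dst (e.1 - y))
  | .act q => Ua L W.n α (dst (e.1 - y)) q
  | .srv => 0
  | .bad => 1

variable {L} {W} {y}

lemma I1_step (hL : 1 ≤ L) (a : Slot) (e : ZMod ℓ × M1) (h : I1 L W y e) :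
    I1 L W y (st1 L W y a e) := by
  obtain ⟨c, m⟩ := e
  cases m with
  | idle =>
    simp only [I1, st1] at h ⊢
    split_ifs with h1
    · exact ⟨by rw [h1]; simp [dst]; omega, W.pos, fun h => absurd h (lt_irrefl _)⟩
    · exact h1
  | act q =>
    simp only [I1, st1] at h ⊢
    obtain ⟨h1, h2, h3⟩ := h
    by_cases hc : c = y ∧ W.P q a
    · rw [if_pos hc]
      have hmv : nx c a = c := nx_still c (W.still q h2 a hc.2)
      by_cases hq : q + 1 = W.n
      · rw [if_pos hq]
        simp only [hmv]
        exact h1
      · rw [if_neg hq]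
        simp only [hmv]
        exact ⟨h1, by omega, fun _ => hc.1⟩
    · rw [if_neg hc]
      by_cases hd : L ≤ dst (nx c a - y)
      · rw [if_pos hd]; trivial
      · rw [if_neg hd]
        exact ⟨by simpa using hd, W.pos, fun h => absurd h (lt_irrefl _)⟩
  | srv =>
    simp only [I1, st1] at h ⊢
    by_cases hd : L ≤ dst (nx c a - y)
    · rw [if_pos hd]
      show nx c a ≠ y
      intro h0
      rw [h0] at hd
      simp [dst] at hd
      omega
    · rw [if_neg hd]
      show dst (nx c a - y) < L
      simpa using hd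
  | bad => trivial

lemma F1_nonneg (hL : 1 ≤ L) {α : ℝ} (hα : 0 ≤ α) (e : ZMod ℓ × M1) (h : I1 L W y e) :
    0 ≤ F1 L W y α e := by
  obtain ⟨c, m⟩ := e
  cases m with
  | idle => exact mul_nonneg hα (gq_nonneg _ _)
  | act q =>
    simp only [I1] at h
    obtain ⟨h1, h2, h3⟩ := h
    simp only [F1, Ua]
    split_ifs with h0
    · exact mul_nonneg hα (by linarith [be_le_one W.pos h2.le])
    · exact lin_nonneg hL hα h1.le
  | srv => exact le_rfl
  | bad => exact zero_le_one

lemma F1_step (hL : 1 ≤ L) (hℓ : 2 * L + 2 ≤ ℓ) {α : ℝ} (hα : α = 14 ^ W.n / L)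
    (e : ZMod ℓ × M1) (h : I1 L W y e) :
    (∑ a : Slot, F1 L W y α (st1 L W y a e)) / 14 ≤ F1 L W y α e + α * (1 / (7 * (L : ℝ) ^ 2)) := by
  have hNe : NeZero ℓ := ⟨by omega⟩
  have hL' : (0 : ℝ) < L := by exact_mod_cast hL
  have hα0 : 0 ≤ α := by rw [hα]; positivity
  have hη : 0 ≤ α * (1 / (7 * (L : ℝ) ^ 2)) := by positivity
  obtain ⟨c, m⟩ := e
  cases m with
  | idle =>
    refine bump_step hL hℓ c y h _ α hα0 fun a => ?_
    simp only [st1]
    by_cases h1 : nx c a = y
    · rw [if_pos h1]
      simp only [F1, h1, sub_self]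
      simp [Ua, dst_zero', be_zero, gq_zero]
    · rw [if_neg h1]
      simp only [F1]
  | act q =>
    simp only [I1] at h
    obtain ⟨h1, h2, h3⟩ := h
    refine (act_step hL hℓ W c y q h1 h2 h3 α hα _ ?_ ?_).trans ?_
    · intro a hc hP
      simp only [st1]
      rw [if_pos ⟨hc, hP⟩]
      have hmv : nx c a = c := nx_still c (W.still q h2 a hP)
      by_cases hq : q + 1 = W.n
      · rw [if_pos hq]
        simp only [F1]
        rw [hq, be_self W.pos]; ring
      · rw [if_neg hq]
        show Ua L W.n α (dst (nx c a - y)) (q + 1) = _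
        rw [hmv, hc, sub_self, dst_zero', Ua, if_pos rfl]
    · intro a hc
      simp only [st1]
      rw [if_neg hc]
      by_cases hd : L ≤ dst (nx c a - y)
      · rw [if_pos hd]
        simp only [F1]
        have h4 := dst_nx_le (by omega) c y a
        have h5 : dst (nx c a - y) = L := by omega
        rw [h5, lin_self hL]
      · rw [if_neg hd]
        simp only [F1, Ua]
        split_ifs with h0
        · rw [h0, be_zero, lin_zero]; ring
        · rfl
    · simp only [F1]
      linarith
  | srv =>
    have hz : ∀ a, F1 L W y α (st1 L W y a (c, M1.srv)) = 0 := by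
      intro a
      simp only [st1]
      by_cases hd : L ≤ dst (nx c a - y)
      · rw [if_pos hd]; simp only [F1]; rw [gq_far hL hd, mul_zero]
      · rw [if_neg hd]; simp only [F1]
    rw [Finset.sum_eq_zero fun a _ => hz a]
    simp only [F1]
    linarith
  | bad =>
    have hz : ∀ a, F1 L W y α (st1 L W y a (c, M1.bad)) = 1 := by
      intro a
      simp only [st1, F1]
    rw [sum_congr rfl fun a _ => hz a, sum_const, card_univ, card_slot]
    simp only [F1]
    have h14 : ((14 : ℕ) • (1 : ℝ)) / 14 = 1 := by norm_num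
    rw [h14]
    linarith

lemma bad_persist {w : ℕ → Slot} {d : ZMod ℓ × M1} {s : ℕ}
    (h : (run (st1 L W y) d w s).2 = M1.bad) {t : ℕ} (hst : s ≤ t) :
    (run (st1 L W y) d w t).2 = M1.bad := by
  induction t, hst using Nat.le_induction with
  | base => exact h
  | succ t _ ih =>
    show (st1 L W y (w t) (run (st1 L W y) d w t)).2 = M1.bad
    simp only [st1]
    rw [ih]

end one

end Pool.Agent.Helper55.PC.Cl

namespace Pool.Agent.Helper55.PC

open Finset Cl
open scoped Classical

theorem cluster_one (ℓ L : ℕ) (hL : 1 ≤ L) (hℓ : 2 * L + 2 ≤ ℓ) (W : Pat) (c0 y : ZMod ℓ) (t : ℕ) :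
    Pr t (fun w => ¬ ∀ s1 sy s2 : ℕ, s1 ≤ sy → sy ≤ s2 → s2 ≤ t →
      L ≤ dst (c0 + (cur w s1 : ZMod ℓ) - y) → c0 + (cur w sy : ZMod ℓ) = y →
      L ≤ dst (c0 + (cur w s2 : ZMod ℓ) - y) →
      ∃ s, s1 ≤ s ∧ s + W.n ≤ s2 ∧ c0 + (cur w s : ZMod ℓ) = y ∧ W.occ w s)
    ≤ (14 ^ W.n / L) * (1 + t / (7 * L ^ 2)) := by
  have hNe : NeZero ℓ := ⟨by omega⟩
  have hL' : (0 : ℝ) < L := by exact_mod_cast hL
  set α : ℝ := 14 ^ W.n / L with hα
  have hα0 : 0 < α := by rw [hα]; positivity
  set d0 : ZMod ℓ × M1 := (c0, if c0 = y then M1.act 0 else M1.idle) with hd0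
  have hI0 : I1 L W y d0 := by
    rw [hd0]
    by_cases h : c0 = y
    · rw [if_pos h]
      refine ⟨?_, W.pos, fun h => absurd h (lt_irrefl _)⟩
      simp only [h, sub_self, dst_zero']; omega
    · rw [if_neg h]; exact h
  have hF0 : F1 L W y α d0 ≤ α := by
    rw [hd0]
    by_cases h : c0 = y
    · rw [if_pos h]
      simp only [F1, h, sub_self]
      simp [Ua, dst_zero', be_zero]
    · rw [if_neg h]
      simp only [F1]
      have := gq_le_one L (dst (c0 - y))
      nlinarith
  have hI : ∀ w s, I1 L W y (run (st1 L W y) d0 w s) := fun w s =>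
    run_inv hI0 (fun a e he => I1_step hL a e he) s
  -- not bad implies the event
  have hdet : ∀ w, (¬ ∀ s1 sy s2 : ℕ, s1 ≤ sy → sy ≤ s2 → s2 ≤ t →
      L ≤ dst (c0 + (cur w s1 : ZMod ℓ) - y) → c0 + (cur w sy : ZMod ℓ) = y →
      L ≤ dst (c0 + (cur w s2 : ZMod ℓ) - y) →
      ∃ s, s1 ≤ s ∧ s + W.n ≤ s2 ∧ c0 + (cur w s : ZMod ℓ) = y ∧ W.occ w s) →
      (run (st1 L W y) d0 w t).2 = M1.bad := by
    intro w hev
    by_contra hbad
    apply hev
    intro s1 sy s2 h1y hy2 h2t hs1 hsy hs2
    by_contra hocc
    have hfst : ∀ s, (run (st1 L W y) d0 w s).1 = c0 + ((cur w s : ℤ) : ZMod ℓ) := fun s =>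
      run_fst _ (fun a e => rfl) d0 w s
    have hnb : ∀ s, s ≤ t → (run (st1 L W y) d0 w s).2 ≠ M1.bad := fun s hs hb =>
      hbad (bad_persist hb hs)
    set e : ℕ → ZMod ℓ × M1 := run (st1 L W y) d0 w with he
    have hsucc : ∀ s, e (s + 1) = st1 L W y (w s) (e s) := fun s => rfl
    -- tracking
    have hP : ∀ s, s1 ≤ s → s ≤ s2 → (e s).2 = M1.idle ∨ ∃ q, (e s).2 = M1.act q ∧ s1 + q ≤ s ∧
        (0 < q → (e (s - q)).1 = y) ∧ ∀ i < q, W.P i (w (s - q + i)) := by
      intro s hs
      induction s, hs using Nat.le_induction with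
      | base =>
        intro _
        left
        have hIs := hI w s1
        have hns := hnb s1 (by omega)
        rw [← he] at hIs
        have hf := hfst s1
        rw [← hf] at hs1
        rcases hm : (e s1).2 with _ | q | _ | _
        · rfl
        · exfalso
          have : dst ((e s1).1 - y) < L := by
            unfold I1 at hIs; rw [hm] at hIs; exact hIs.1
          omega
        · exfalso
          have : dst ((e s1).1 - y) < L := by
            unfold I1 at hIs; rw [hm] at hIs; exact hIs
          omega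
        · exact absurd hm hns
      | succ s hs ih =>
        intro hs2'
        have hnb' := hnb (s + 1) (by omega)
        rw [hsucc] at hnb' ⊢
        have hIs := hI w s
        rw [← he] at hIs
        rcases ih (by omega) with hm | ⟨q, hm, h1, h2, h3⟩
        · simp only [st1]
          rw [hm]
          by_cases h : nx (e s).1 (w s) = y
          · right
            refine ⟨0, by simp [h], by omega, fun h => absurd h (lt_irrefl _), fun i hi => absurd hi (by omega)⟩
          · left; simp [h]
        · have hq : q < W.n := by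
            unfold I1 at hIs; rw [hm] at hIs; exact hIs.2.1
          simp only [st1] at hnb' ⊢
          rw [hm] at hnb' ⊢
          simp only at hnb' ⊢
          by_cases hc : (e s).1 = y ∧ W.P q (w s)
          · rw [if_pos hc]
            have hcy : (e (s - q)).1 = y := by
              rcases Nat.eq_zero_or_pos q with h | h
              · rw [h]; exact hc.1
              · exact h2 h
            have hall : ∀ i < q + 1, W.P i (w (s - q + i)) := by
              intro i hi
              rcases Nat.lt_succ_iff_lt_or_eq.1 hi with h | h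
              · exact h3 i h
              · rw [h, show s - q + q = s by omega]; exact hc.2
            by_cases hqn : q + 1 = W.n
            · exfalso
              apply hocc
              refine ⟨s - q, by omega, by omega, ?_, ?_⟩
              · rw [← hfst]; exact hcy
              · intro i hi
                exact hall i (by omega)
            · rw [if_neg hqn]
              right
              refine ⟨q + 1, rfl, by omega, fun _ => ?_, ?_⟩
              · rw [show s + 1 - (q + 1) = s - q by omega]; exact hcy
              · rw [show s + 1 - (q + 1) = s - q by omega]; exact hall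
          · rw [if_neg hc] at hnb' ⊢
            by_cases hd : L ≤ dst (nx (e s).1 (w s) - y)
            · rw [if_pos hd] at hnb'
              exact absurd rfl hnb'
            · rw [if_neg hd]
              right
              exact ⟨0, rfl, by omega, fun h => absurd h (lt_irrefl _), fun i hi => absurd hi (by omega)⟩
    have hQ : ∀ s, sy ≤ s → s ≤ s2 → (e s).2 ≠ M1.idle := by
      intro s hs
      induction s, hs using Nat.le_induction with
      | base =>
        intro _ hm
        have hIs := hI w sy
        rw [← he] at hIs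
        unfold I1 at hIs
        rw [hm] at hIs
        apply hIs
        rw [hfst]; exact hsy
      | succ s hs ih =>
        intro hs2' hm
        rcases hP s (by omega) (by omega) with h | ⟨q, h, _⟩
        · exact ih (by omega) h
        · rw [hsucc] at hm
          simp only [st1] at hm
          rw [h] at hm
          simp only at hm
          split_ifs at hm
    rcases hP s2 (by omega) le_rfl with h | ⟨q, h, _⟩
    · exact hQ s2 hy2 le_rfl h
    · have hIs := hI w s2
      rw [← he] at hIs
      unfold I1 at hIs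
      rw [h] at hIs
      rw [← hfst] at hs2
      have := hIs.1
      omega
  have hEx := Ex_run_le (st1 L W y) d0 (I1 L W y) hI0 (fun a e he => I1_step hL a e he)
    (F1 L W y α) (α * (1 / (7 * (L : ℝ) ^ 2))) (fun e he => F1_step hL hℓ hα e he) t
  calc Pr t _ ≤ Pr t (fun w => (run (st1 L W y) d0 w t).2 = M1.bad) := Pr_mono hdet
    _ ≤ Ex t (fun w => F1 L W y α (run (st1 L W y) d0 w t)) := by
      unfold Pr
      refine Ex_mono fun w => ?_
      split_ifs with h
      · unfold F1; rw [h]
      · exact F1_nonneg hL hα0.le _ (hI w t)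
    _ ≤ α * (1 + t / (7 * (L : ℝ) ^ 2)) := by
      refine hEx.trans ?_
      have : α * (1 + t / (7 * (L : ℝ) ^ 2)) = α + t * (α * (1 / (7 * (L : ℝ) ^ 2))) := by ring
      rw [this]
      linarith

end Pool.Agent.Helper55.PC
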