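import Pool.Agent.Helper55.PC.Events
import Pool.Agent.Helper78.PC.LegSurvive
import Pool.Agent.Helper72.PC.Marks
import Pool.Agent.Helper81.PC.ClusterOne
import Pool.Agent.Helper14.PC.TVLower
import Pool.Agent.Helper90.PC.CondSurvive

/-!
# Block C7f: tv_lower_final (MP_cf7fa9_pr)
-/

namespace Pool.Agent.Helper55.PC.Tf

open Finset Filter
open scoped Topology ENNReal Classical

variable {k r L : ℕ} [NeZero k] [NeZero L]

lemma X0_card (hr : 1 ≤ r) : (X0 r L).card = L / r := by
  unfold X0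
  rw [card_image_of_injective, card_range]
  intro a b h
  simp only at h
  have : r * a = r * b := by omega
  exact Nat.eq_of_mul_eq_mul_left hr this

lemma X0_mem (hr : 1 ≤ r) {X : ℕ} (h : X ∈ X0 r L) : L ≤ X ∧ X < 2 * L := by
  unfold X0 at h
  rw [mem_image] at h
  obtain ⟨i, hi, rfl⟩ := h
  rw [mem_range] at hi
  refine ⟨by omega, ?_⟩
  have h1 : r * i < r * (L / r) := Nat.mul_lt_mul_of_pos_left hi hr
  have h2 : r * (L / r) ≤ L := Nat.mul_div_le L r
  omega

lemma cast_inj {n : ℕ} {a b : ℕ} (ha : a < n) (hb : b < n)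
    (h : ((a : ℕ) : ZMod n) = ((b : ℕ) : ZMod n)) : a = b := by
  have := congrArg ZMod.val h
  rwa [ZMod.val_natCast_of_lt ha, ZMod.val_natCast_of_lt hb] at this

lemma cast_inj_X0 (hk : 3 ≤ k) {X X' : ℕ} (h : X < 2 * L) (h' : X' < 2 * L)
    (he : ((X : ℕ) : Site k L) = ((X' : ℕ) : Site k L)) : X = X' := by
  refine cast_inj (n := k * (12 * L)) ?_ ?_ he <;> nlinarith

lemma sep {X X' : ℕ} (h0 : L ≤ X) (h : X < 2 * L) (h0' : L ≤ X') (h' : X' < 2 * L)
    (hne : ((X : ℕ) : Site k L) ≠ ((X' : ℕ) : Site k L)) (j : ZMod k) (i : Bool) (j' : ZMod k)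
    (i' : Bool) : ((X : ℕ) : Site k L) + tpt k L j i ≠ ((X' : ℕ) : Site k L) + tpt k L j' i' := by
  intro he
  apply hne
  unfold tpt at he
  rw [← Nat.cast_add, ← Nat.cast_add] at he
  have hj := ZMod.val_lt j
  have hj' := ZMod.val_lt j'
  have hb : ∀ (X a jv : ℕ), X < 2 * L → a ≤ 8 * L → jv < k → X + (jv * (12 * L) + a) < k * (12 * L) := by
    intro X a jv hX ha hjv
    have h1 : (jv + 1) * (12 * L) ≤ k * (12 * L) := Nat.mul_le_mul_right _ hjv
    have h2 : (jv + 1) * (12 * L) = jv * (12 * L) + 12 * L := by ring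
    omega
  have e := cast_inj (hb X _ _ h (by split_ifs <;> omega) hj)
    (hb X' _ _ h' (by split_ifs <;> omega) hj') he
  have hL : 0 < L := Nat.pos_of_ne_zero (NeZero.ne L)
  have e2 := congrArg (fun n => n % (12 * L)) e
  have e3 : ∀ (X a jv : ℕ), X + a < 12 * L → (X + (jv * (12 * L) + a)) % (12 * L) = X + a := by
    intro X a jv hX
    rw [show X + (jv * (12 * L) + a) = (X + a) + 12 * L * jv by ring, Nat.add_mul_mod_self_left,
      Nat.mod_eq_of_lt hX]
  rw [e3 X _ _ (by split_ifs <;> omega), e3 X' _ _ (by split_ifs <;> omega)] at e2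
  congr 1
  split_ifs at e2 <;> omega

end Pool.Agent.Helper55.PC.Tf

namespace Pool.Agent.Helper55.PC

open Finset Filter Tf
open scoped Topology ENNReal Classical

section
variable {k r L : ℕ} [NeZero k] [NeZero L] {R U : Type} [Group R] [Fintype R]
    [AddCommGroup U] [Fintype U] [DistribMulAction R U] {s q : R} {u : Idx k r → U} {W : Pat}

theorem tv_lower_final (hG : GW s q u W) (hu : ∀ i, u i ≠ 0) (hk : 3 ≤ k) (hr : 1 ≤ r) (hrL : r ≤ L)
    (hkr : 2 * k + 8 ≤ 2 ^ r) (t n0 : ℕ) (m R' : ℕ) (hm : m = (k + 4) * (12 * L))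
    (hR : R' = (2 ^ r - 1 - k - 2) * (12 * L)) (θ : ℝ)
    (hθ : θ = 2 * ((1 + 1 / (m : ℝ)) ^ (R' - m))⁻¹) (hθ1 : θ < 1)
    (hθ2 : ((R' - m : ℕ) : ℝ) * θ ≤ (m + 1) / 2) :
    (1 - θ / (7 * m * (m + 1))) ^ t / (1 + θ) - errL k r L n0 t ≤
    (1 / 2) * ∑ y : St k r L R U, |Pr t (fun w => run (step s q u) (0, 0, 0, 1) w t = y) -
      1 / (Fintype.card (St k r L R U) : ℝ)| := by
  have hL : 0 < L := Nat.pos_of_ne_zero (NeZero.ne L)
  have hL' : (0 : ℝ) < L := by exact_mod_cast hL
  have hkL : 2 * L + 2 ≤ k * (12 * L) := by nlinarith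
  set N : ℕ := L / r with hN
  have hN1 : 1 ≤ N := (Nat.one_le_div_iff hr).2 hrL
  have hN' : (0 : ℝ) < N := by exact_mod_cast hN1
  have hX0 : (X0 r L).card = N := X0_card hr
  set Q : ℕ := k * r * (n0 + 1) with hQ
  -- events
  set Xs : (ℕ → Slot) → Finset ℕ := fun w => (X0 r L).filter (fun X => ∀ (j : ZMod k) (i : Fin r),
      Served1 patE (0 : Site k L) (blk k r L ((X : ℕ) : Site k L) j i) L t w) with hXs
  set good : (ℕ → Slot) → Prop := fun w => Legs m R' t w ∧ MarksOK L n0 t w ∧
    (N : ℝ) ≤ 2 * ((Xs w).card : ℝ) with hgood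
  -- probability of the good event
  have h1 : (1 - θ / (7 * m * (m + 1))) ^ t / (1 + θ) ≤ Pr t (fun w => Legs m R' t w) := by
    refine leg_survive m R' ?_ ?_ θ hθ hθ1 hθ2 t
    · rw [hm]; nlinarith
    · rw [hm, hR]
      apply Nat.mul_lt_mul_of_pos_right _ (by omega)
      omega
  have h2 : Pr t (fun w => ¬ MarksOK L n0 t w) ≤ t / (7 * (L : ℝ) ^ 2 * (n0 + 1)) := marks L n0 t hL
  have h3 : Pr t (fun w => ¬ ((N : ℝ) ≤ 2 * ((Xs w).card : ℝ))) ≤
      28 * (k * r) / L * (1 + t / (7 * (L : ℝ) ^ 2)) := by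
    -- number of unserved base points
    set f : (ℕ → Slot) → ℝ := fun w => ∑ X ∈ X0 r L, ∑ j : ZMod k, ∑ i : Fin r,
      (if ¬ Served1 patE (0 : Site k L) (blk k r L ((X : ℕ) : Site k L) j i) L t w then (1:ℝ) else 0)
      with hf
    have hf0 : ∀ w, 0 ≤ f w := fun w => sum_nonneg fun _ _ => sum_nonneg fun _ _ =>
      sum_nonneg fun _ _ => by split_ifs <;> norm_num
    have hle : ∀ w, (N : ℝ) - (Xs w).card ≤ f w := by
      intro w
      have e1 : (N : ℝ) - (Xs w).card = ∑ X ∈ X0 r L, (if ¬ (∀ (j : ZMod k) (i : Fin r),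
          Served1 patE (0 : Site k L) (blk k r L ((X : ℕ) : Site k L) j i) L t w) then (1:ℝ) else 0) := by
        rw [← hX0, hXs]
        simp only
        rw [card_filter]
        push_cast
        rw [card_eq_sum_ones]
        push_cast
        rw [← sum_sub_distrib]
        refine sum_congr rfl fun X _ => ?_
        split_ifs <;> norm_num
      rw [e1]
      refine sum_le_sum fun X _ => ?_
      by_cases h : ∀ (j : ZMod k) (i : Fin r),
          Served1 patE (0 : Site k L) (blk k r L ((X : ℕ) : Site k L) j i) L t w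
      swap
      · rw [if_pos h]
        push Not at h
        obtain ⟨j, i, hji⟩ := h
        calc (1:ℝ) = (if ¬ Served1 patE (0 : Site k L) (blk k r L ((X : ℕ) : Site k L) j i) L t w
              then (1:ℝ) else 0) := by rw [if_pos hji]
          _ ≤ ∑ i : Fin r, (if ¬ Served1 patE (0 : Site k L) (blk k r L ((X : ℕ) : Site k L) j i) L t w
              then (1:ℝ) else 0) := single_le_sum (f := fun i : Fin r =>
              (if ¬ Served1 patE (0 : Site k L) (blk k r L ((X : ℕ) : Site k L) j i) L t w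
              then (1:ℝ) else 0)) (fun _ _ => by split_ifs <;> norm_num) (mem_univ i)
          _ ≤ _ := single_le_sum (f := fun j : ZMod k => ∑ i : Fin r,
              (if ¬ Served1 patE (0 : Site k L) (blk k r L ((X : ℕ) : Site k L) j i) L t w
              then (1:ℝ) else 0)) (fun _ _ => sum_nonneg fun _ _ => by split_ifs <;> norm_num)
              (mem_univ j)
      · rw [if_neg (not_not.2 h)]
        exact sum_nonneg fun _ _ => sum_nonneg fun _ _ => by split_ifs <;> norm_num
    have hEx : Ex t f ≤ N * (k * (r * (14 / L * (1 + t / (7 * (L : ℝ) ^ 2))))) := by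
      rw [hf]
      rw [Ex_sum]
      have : ∀ X ∈ X0 r L, Ex t (fun w => ∑ j : ZMod k, ∑ i : Fin r,
          (if ¬ Served1 patE (0 : Site k L) (blk k r L ((X : ℕ) : Site k L) j i) L t w
            then (1:ℝ) else 0)) ≤ (k * (r * (14 / L * (1 + t / (7 * (L : ℝ) ^ 2))))) := by
        intro X _
        rw [Ex_sum]
        have h4 : ∀ j ∈ (univ : Finset (ZMod k)), Ex t (fun w => ∑ i : Fin r,
          (if ¬ Served1 patE (0 : Site k L) (blk k r L ((X : ℕ) : Site k L) j i) L t w
            then (1:ℝ) else 0)) ≤ ((r * (14 / L * (1 + t / (7 * (L : ℝ) ^ 2))))) := by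
          intro j _
          rw [Ex_sum]
          have h5 : ∀ i ∈ (univ : Finset (Fin r)), Ex t (fun w =>
            (if ¬ Served1 patE (0 : Site k L) (blk k r L ((X : ℕ) : Site k L) j i) L t w
              then (1:ℝ) else 0)) ≤ (((14 / L * (1 + t / (7 * (L : ℝ) ^ 2))))) := by
            intro i _
            have h6 := cluster_one (k * (12 * L)) L hL hkL patE (0 : Site k L)
              (blk k r L ((X : ℕ) : Site k L) j i) t
            have h7 : (patE.n) = 1 := rfl
            rw [h7, pow_one] at h6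
            refine le_trans (le_of_eq ?_) h6
            unfold Pr
            congr 1
            funext w
            by_cases h8 : Served1 patE (0 : Site k L) (blk k r L ((X : ℕ) : Site k L) j i) L t w
            · rw [if_neg (not_not.2 h8)]
              exact (if_neg (not_not.2 h8)).symm
            · rw [if_pos h8]
              exact (if_pos h8).symm
          refine (sum_le_card_nsmul _ _ _ h5).trans (le_of_eq ?_)
          simp
        refine (sum_le_card_nsmul _ _ _ h4).trans (le_of_eq ?_)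
        simp [ZMod.card]
      refine (sum_le_card_nsmul _ _ _ this).trans (le_of_eq ?_)
      rw [hX0]; simp
    have hMk := Pr_le_Ex (t := t) (f := f) (E := fun w => ¬ ((N : ℝ) ≤ 2 * ((Xs w).card : ℝ))) hf0
      (c := N / 2) (by positivity) (fun w hw => by
        push Not at hw
        have := hle w
        linarith)
    refine hMk.trans ?_
    rw [div_le_iff₀ (by positivity)]
    refine hEx.trans (le_of_eq ?_)
    ring
  have hgoodP : (1 - θ / (7 * m * (m + 1))) ^ t / (1 + θ) - t / (7 * (L : ℝ) ^ 2 * (n0 + 1)) -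
      28 * (k * r) / L * (1 + t / (7 * (L : ℝ) ^ 2)) ≤ Pr t good := by
    have h4 : Pr t (fun w => Legs m R' t w) ≤ Pr t good + (Pr t (fun w => ¬ MarksOK L n0 t w) +
        Pr t (fun w => ¬ ((N : ℝ) ≤ 2 * ((Xs w).card : ℝ)))) := by
      refine le_trans (Pr_mono (F := fun w => good w ∨ (¬ MarksOK L n0 t w ∨
        ¬ ((N : ℝ) ≤ 2 * ((Xs w).card : ℝ)))) fun w hw => ?_) ((Pr_or_le _ _).trans ?_)
      · by_cases ha : MarksOK L n0 t w
        · by_cases hb : ((N : ℝ) ≤ 2 * ((Xs w).card : ℝ))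
          · exact Or.inl ⟨hw, ha, hb⟩
          · exact Or.inr (Or.inr hb)
        · exact Or.inr (Or.inl ha)
      · have := Pr_or_le (t := t) (fun w => ¬ MarksOK L n0 t w)
          (fun w => ¬ ((N : ℝ) ≤ 2 * ((Xs w).card : ℝ)))
        linarith
    linarith
  -- the level
  set A0 : ℝ := N / (4 * 2 ^ Q) with hA0
  have hA0pos : 0 < A0 := by positivity
  set cnt : (ℕ → Slot) → ℝ := fun w => (((X0 r L).filter (fun X => ∃ f : Lbl k r,
    NB ((X : ℕ) : Site k L) f t w)).card : ℝ) with hcnt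
  have hcond : ∀ w, good w → ((univ.filter (fun η : Fin t → Bool =>
      cnt (rs 2 (extB η) w) < A0)).card : ℝ) ≤ 2 ^ t * (8 * 2 ^ Q / N) := by
    intro w hw
    obtain ⟨ha, hb, hc⟩ := hw
    have hne : (Xs w).Nonempty := by
      rw [← card_pos]
      by_contra h0
      have : (Xs w).card = 0 := by omega
      rw [this] at hc
      push_cast at hc
      linarith
    have hcpos : (0 : ℝ) < (Xs w).card := by exact_mod_cast card_pos.2 hne
    rw [hm, hR] at ha
    have h4 := cond_survive (k := k) (r := r) (L := L) hk hr hrL (by omega) w ha hb (Xs w)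
      (filter_subset _ _) hne (fun X hX => (mem_filter.1 hX).2)
    have hpow : (0:ℝ) < 2 ^ Q := by positivity
    calc ((univ.filter (fun η : Fin t → Bool => cnt (rs 2 (extB η) w) < A0)).card : ℝ)
        ≤ ((univ.filter (fun η : Fin t → Bool =>
          (((X0 r L).filter (fun X => ∃ f : Lbl k r, NB ((X : ℕ) : Site k L) f t
            (rs 2 (extB η) w))).card : ℝ) < (Xs w).card / (2 * 2 ^ (k * r * (n0 + 1))))).card : ℝ) := by
          apply Nat.cast_le.2
          apply card_le_card
          intro η hη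
          rw [mem_filter] at hη ⊢
          refine ⟨hη.1, lt_of_lt_of_le hη.2 ?_⟩
          rw [hA0, ← hQ, div_le_div_iff₀ (by positivity) (by positivity)]
          nlinarith
      _ ≤ 2 ^ t * (4 * 2 ^ (k * r * (n0 + 1)) / (Xs w).card) := h4
      _ ≤ 2 ^ t * (8 * 2 ^ Q / N) := by
          apply mul_le_mul_of_nonneg_left _ (by positivity)
          rw [← hQ, div_le_div_iff₀ hcpos hN']
          nlinarith
  -- averaging over the bits
  have havg : Pr t good - 8 * 2 ^ Q / N ≤ Pr t (fun w => A0 ≤ cnt w) := by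
    have e1 : Pr t (fun w => A0 ≤ cnt w) = Ex t (fun w =>
        (∑ η : Fin t → Bool, if A0 ≤ cnt (rs 2 (extB η) w) then (1:ℝ) else 0) / 2 ^ t) := by
      have e2 : ∀ η : Fin t → Bool, Ex t (fun w => if A0 ≤ cnt (rs 2 (extB η) w) then (1:ℝ) else 0) =
          Pr t (fun w => A0 ≤ cnt w) := by
        intro η
        exact Ex_rs (t := t) (i := 2) (by decide) (extB η) (fun w => if A0 ≤ cnt w then (1:ℝ) else 0)
      have e3 : Ex t (fun w =>
          (∑ η : Fin t → Bool, if A0 ≤ cnt (rs 2 (extB η) w) then (1:ℝ) else 0) / 2 ^ t) =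
          (∑ η : Fin t → Bool, Ex t (fun w => if A0 ≤ cnt (rs 2 (extB η) w) then (1:ℝ) else 0)) / 2 ^ t := by
        rw [← Ex_sum, div_eq_mul_inv, ← Ex_mul_right]
        rfl
      rw [e3, sum_congr rfl fun η _ => e2 η, sum_const, card_univ, Fintype.card_fun]
      simp
    rw [e1]
    have e4 : Pr t good - 8 * 2 ^ Q / N ≤ Ex t (fun w => (if good w then 1 else 0) -
        8 * 2 ^ Q / (N : ℝ)) := by
      rw [Ex_sub, Ex_const]
      unfold Pr
      apply le_of_eq
      congr 2
      funext w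
      by_cases h8 : good w
      · rw [if_pos h8, if_pos h8]
      · rw [if_neg h8, if_neg h8]
    refine e4.trans (Ex_mono fun w => ?_)
    have hx0 : (0:ℝ) ≤ 8 * 2 ^ Q / (N : ℝ) := by positivity
    by_cases hw : good w
    · rw [if_pos hw, le_div_iff₀ (by positivity)]
      have h5 := hcond w hw
      have h6 : (∑ η : Fin t → Bool, if A0 ≤ cnt (rs 2 (extB η) w) then (1:ℝ) else 0) =
          2 ^ t - ((univ.filter (fun η : Fin t → Bool => cnt (rs 2 (extB η) w) < A0)).card : ℝ) := by
        rw [card_filter]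
        push_cast
        have h7 : (2:ℝ) ^ t = ∑ _η : Fin t → Bool, (1:ℝ) := by
          rw [sum_const, card_univ, Fintype.card_fun]; simp
        rw [h7, ← sum_sub_distrib]
        refine sum_congr rfl fun η _ => ?_
        by_cases h8 : A0 ≤ cnt (rs 2 (extB η) w)
        · rw [if_pos h8, if_neg (not_lt.2 h8)]; norm_num
        · rw [if_neg h8, if_pos (not_le.1 h8)]; norm_num
      rw [h6]
      linarith
    · rw [if_neg hw]
      have : (0:ℝ) ≤ (∑ η : Fin t → Bool, if A0 ≤ cnt (rs 2 (extB η) w) then (1:ℝ) else 0) / 2 ^ t := by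
        apply div_nonneg _ (by positivity)
        exact sum_nonneg fun _ _ => by split_ifs <;> norm_num
      linarith
  -- the second moment bound
  set XX : Finset (Site k L) := (X0 r L).image (fun X : ℕ => ((X : ℕ) : Site k L)) with hXX
  have hinj : Set.InjOn (fun X : ℕ => ((X : ℕ) : Site k L)) (X0 r L) := by
    intro X hX X' hX' he
    exact cast_inj_X0 hk (X0_mem hr hX).2 (X0_mem hr hX').2 he
  have hXXc : XX.card = N := by rw [hXX, card_image_of_injOn hinj, hX0]
  have htv := tv_lower hG hu XX (by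
    intro x hx x' hx' hne
    rw [hXX, mem_image] at hx hx'
    obtain ⟨X, hX, rfl⟩ := hx
    obtain ⟨X', hX', rfl⟩ := hx'
    exact sep (X0_mem hr hX).1 (X0_mem hr hX).2 (X0_mem hr hX').1 (X0_mem hr hX').2 hne) t A0 hA0pos
  have hcc : ∀ w, ((XX.filter (fun x => ∃ f : Lbl k r, NB x f t w)).card : ℝ) = cnt w := by
    intro w
    rw [hcnt, hXX]
    simp only
    rw [filter_image, card_image_of_injOn]
    exact hinj.mono (by intro z hz; exact (mem_filter.1 hz).1)
  simp only [hcc] at htv
  rw [hXXc] at htv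
  have herr : 8 * (N : ℝ) * 4 ^ (k * r) / A0 ^ 2 = 128 * 4 ^ (k * r + Q) / N := by
    rw [hA0, pow_add]
    have : (4:ℝ) ^ Q = (2 ^ Q) ^ 2 := by
      rw [show (4:ℝ) = 2 ^ 2 by norm_num, ← pow_mul, ← pow_mul, mul_comm]
    rw [this]
    field_simp
    ring
  rw [herr] at htv
  have : errL k r L n0 t = t / (7 * (L : ℝ) ^ 2 * (n0 + 1)) +
      28 * (k * r) / L * (1 + t / (7 * (L : ℝ) ^ 2)) +
      8 * 2 ^ Q / (N : ℝ) + 128 * 4 ^ (k * r + Q) / (N : ℝ) := rfl
  rw [this]
  linarith

end

end Pool.Agent.Helper55.PC
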