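import Pool.Agent.Helper55.PC.Base

/-!
# Geometry of the cycle and one-step inequalities (MP_cf7fa9_pr, blocks B3, B4)
-/

namespace Pool.Agent.Helper55.PC.Cl

open Finset
open scoped Classical

lemma mv_cases (a : Slot) : a = (0, true) ∨ a = (1, true) ∨ (a ≠ (0, true) ∧ a ≠ (1, true) ∧ mv a = 0) := by
  by_cases h0 : a = (0, true)
  · exact Or.inl h0
  · by_cases h1 : a = (1, true)
    · exact Or.inr (Or.inl h1)
    · exact Or.inr (Or.inr ⟨h0, h1, by simp [mv, h0, h1]⟩)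

lemma mv_zero_true : mv (0, true) = 1 := by simp [mv]

lemma mv_one_true : mv (1, true) = -1 := by
  have : ((1, true) : Slot) ≠ (0, true) := by decide
  simp [mv, this]

/-- Sum over the letters: two moving letters, twelve still letters. -/
lemma sum_letters_le (G : Slot → ℝ) (A B C : ℝ) (hA : G (0, true) ≤ A) (hB : G (1, true) ≤ B)
    (hC : ∀ a, mv a = 0 → G a ≤ C) : ∑ a : Slot, G a ≤ A + B + 12 * C := by
  have h : ∀ a : Slot, G a ≤ C + (if a = (0, true) then A - C else 0) +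
      (if a = (1, true) then B - C else 0) := by
    intro a
    have hne : ((1, true) : Slot) ≠ (0, true) := by decide
    rcases mv_cases a with rfl | rfl | ⟨h0, h1, h2⟩
    · simp [hne.symm]; linarith
    · simp [hne]; linarith
    · simp [h0, h1]; exact hC a h2
  calc ∑ a : Slot, G a ≤ ∑ a : Slot, (C + (if a = (0, true) then A - C else 0) +
      (if a = (1, true) then B - C else 0)) := sum_le_sum fun a _ => h a
    _ = A + B + 12 * C := by
      rw [sum_add_distrib, sum_add_distrib]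
      simp only [sum_const, sum_ite_eq', mem_univ, if_true, card_univ, card_slot]
      simp; ring

/-- Sum over the letters with one distinguished still letter. -/
lemma sum_letters_le' (G : Slot → ℝ) (A B C C0 : ℝ) (hA : G (0, true) ≤ A) (hB : G (1, true) ≤ B)
    (hC : ∀ a, mv a = 0 → G a ≤ C) (a0 : Slot) (h0 : mv a0 = 0) (hC0 : G a0 ≤ C0) :
    ∑ a : Slot, G a ≤ A + B + 11 * C + C0 := by
  have hne : ((1, true) : Slot) ≠ (0, true) := by decide
  have h00 : a0 ≠ (0, true) := by rintro rfl; simp [mv_zero_true] at h0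
  have h01 : a0 ≠ (1, true) := by rintro rfl; simp [mv_one_true] at h0
  have h : ∀ a : Slot, G a ≤ C + (if a = (0, true) then A - C else 0) +
      (if a = (1, true) then B - C else 0) + (if a = a0 then C0 - C else 0) := by
    intro a
    rcases mv_cases a with rfl | rfl | ⟨h0, h1, h2⟩
    · simp [hne.symm, h00.symm]; linarith
    · simp [hne, h01.symm]; linarith
    · by_cases ha : a = a0
      · subst ha
        rw [if_neg h00, if_neg h01, if_pos rfl]; linarith
      · simp [h0, h1, ha]; exact hC a h2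
  calc ∑ a : Slot, G a ≤ ∑ a : Slot, (C + (if a = (0, true) then A - C else 0) +
      (if a = (1, true) then B - C else 0) + (if a = a0 then C0 - C else 0)) :=
        sum_le_sum fun a _ => h a
    _ = A + B + 11 * C + C0 := by
      rw [sum_add_distrib, sum_add_distrib, sum_add_distrib]
      simp only [sum_const, sum_ite_eq', mem_univ, if_true, card_univ, card_slot]
      simp; ring

/-! ### the cycle -/

variable {ℓ : ℕ}

lemma dst_natCast {ℓ : ℕ} (n : ℕ) (h : n < ℓ) : dst ((n : ZMod ℓ)) = min n (ℓ - n) := by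
  unfold dst
  rw [ZMod.val_natCast_of_lt h]

lemma dst_zero' : dst (0 : ZMod ℓ) = 0 := by simp [dst]

lemma dst_eq_zero_iff [NeZero ℓ] (v : ZMod ℓ) : dst v = 0 ↔ v = 0 := by
  unfold dst
  have h := ZMod.val_lt v
  constructor
  · intro h0
    have : v.val = 0 := by omega
    exact (ZMod.val_eq_zero v).1 this
  · rintro rfl; simp

lemma exists_rep [NeZero ℓ] (v : ZMod ℓ) : ∃ n : ℕ, n < ℓ ∧ v = (n : ZMod ℓ) :=
  ⟨v.val, ZMod.val_lt v, by simp⟩

/-- `dst (v + 1)` in terms of the representative. -/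
lemma dst_add_one (hℓ : 2 ≤ ℓ) (n : ℕ) (h : n < ℓ) :
    dst ((n : ZMod ℓ) + 1) = min (n + 1) (ℓ - (n + 1)) := by
  by_cases hn : n + 1 < ℓ
  · have : ((n : ZMod ℓ) + 1) = ((n + 1 : ℕ) : ZMod ℓ) := by push_cast; ring
    rw [this, dst_natCast _ hn]
  · have hn' : n + 1 = ℓ := by omega
    have : ((n : ZMod ℓ) + 1) = ((n + 1 : ℕ) : ZMod ℓ) := by push_cast; ring
    rw [this, hn']
    simp [dst]

lemma dst_sub_one (hℓ : 2 ≤ ℓ) (n : ℕ) (h : n < ℓ) :
    dst ((n : ZMod ℓ) - 1) = if n = 0 then 1 else min (n - 1) (ℓ - (n - 1)) := by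
  split_ifs with hn
  · subst hn
    have : (((0 : ℕ) : ZMod ℓ) - 1) = ((ℓ - 1 : ℕ) : ZMod ℓ) := by
      rw [Nat.cast_sub (by omega)]
      simp
    rw [this, dst_natCast _ (by omega)]
    omega
  · have : ((n : ZMod ℓ) - 1) = ((n - 1 : ℕ) : ZMod ℓ) := by
      rw [Nat.cast_sub (by omega)]; simp
    rw [this, dst_natCast _ (by omega)]

lemma dst_zero_add_one (hℓ : 2 ≤ ℓ) : dst ((0 : ZMod ℓ) + 1) = 1 := by
  have := dst_add_one hℓ 0 (by omega)
  simp only [Nat.cast_zero] at this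
  rw [this]; omega

lemma dst_zero_sub_one (hℓ : 2 ≤ ℓ) : dst ((0 : ZMod ℓ) - 1) = 1 := by
  have := dst_sub_one hℓ 0 (by omega)
  simpa using this

/-- the two neighbours of a point at distance `0 < d ≤ L` are at distances `d ± 1` -/
lemma dst_nbr {L : ℕ} (hℓ : 2 * L + 2 ≤ ℓ) (v : ZMod ℓ) (hv : v ≠ 0) (hd : dst v ≤ L)
    (f : ℕ → ℝ) : f (dst (v + 1)) + f (dst (v - 1)) = f (dst v + 1) + f (dst v - 1) := by
  have : NeZero ℓ := ⟨by omega⟩
  obtain ⟨n, hn, rfl⟩ := exists_rep v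
  have hn0 : n ≠ 0 := by rintro rfl; simp at hv
  rw [dst_natCast n hn] at hd ⊢
  rw [dst_add_one (by omega) n hn, dst_sub_one (by omega) n hn, if_neg hn0]
  rcases le_or_gt n L with h | h
  · have e1 : min (n + 1) (ℓ - (n + 1)) = n + 1 := by omega
    have e2 : min (n - 1) (ℓ - (n - 1)) = n - 1 := by omega
    have e3 : min n (ℓ - n) = n := by omega
    rw [e1, e2, e3]
  · have h' : ℓ - n ≤ L := by omega
    have e1 : min (n + 1) (ℓ - (n + 1)) = (ℓ - n) - 1 := by omega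
    have e2 : min (n - 1) (ℓ - (n - 1)) = (ℓ - n) + 1 := by omega
    have e3 : min n (ℓ - n) = ℓ - n := by omega
    rw [e1, e2, e3, add_comm]

lemma dst_far {L : ℕ} (hℓ : 2 * L + 2 ≤ ℓ) (v : ZMod ℓ) (hd : L < dst v) :
    L ≤ dst (v + 1) ∧ L ≤ dst (v - 1) := by
  have : NeZero ℓ := ⟨by omega⟩
  obtain ⟨n, hn, rfl⟩ := exists_rep v
  rw [dst_natCast n hn] at hd
  rw [dst_add_one (by omega) n hn, dst_sub_one (by omega) n hn]
  split_ifs <;> omega

lemma dst_step_le (hℓ : 2 ≤ ℓ) (v : ZMod ℓ) : dst (v + 1) ≤ dst v + 1 ∧ dst (v - 1) ≤ dst v + 1 := by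
  have : NeZero ℓ := ⟨by omega⟩
  obtain ⟨n, hn, rfl⟩ := exists_rep v
  rw [dst_natCast n hn, dst_add_one (by omega) n hn, dst_sub_one (by omega) n hn]
  split_ifs <;> omega

lemma dst_neg [NeZero ℓ] (v : ZMod ℓ) : dst (-v) = dst v := by
  by_cases hv : v = 0
  · subst hv; simp
  · unfold dst
    haveI : NeZero v := ⟨hv⟩
    rw [ZMod.val_neg_of_ne_zero]
    have := ZMod.val_lt v
    omega

lemma dst_add_le [NeZero ℓ] (u v : ZMod ℓ) : dst (u + v) ≤ dst u + dst v := by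
  unfold dst
  have hu := ZMod.val_lt u
  have hv := ZMod.val_lt v
  rw [ZMod.val_add]
  rcases lt_or_ge (u.val + v.val) ℓ with h | h
  · rw [Nat.mod_eq_of_lt h]; omega
  · rw [Nat.mod_eq_sub_mod h, Nat.mod_eq_of_lt (by omega)]
    omega

/-! ### one-step inequalities -/

/-- cursor after the letter `a` -/
noncomputable def nx (c : ZMod ℓ) (a : Slot) : ZMod ℓ := c + ((mv a : ℤ) : ZMod ℓ)

lemma nx_still (c : ZMod ℓ) {a : Slot} (h : mv a = 0) : nx c a = c := by simp [nx, h]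

lemma nx_right (c : ZMod ℓ) : nx c (0, true) = c + 1 := by simp [nx, mv_zero_true]

lemma nx_left (c : ZMod ℓ) : nx c (1, true) = c - 1 := by
  simp [nx, mv_one_true, sub_eq_add_neg]

lemma dst_nx_le (hℓ : 2 ≤ ℓ) (c y : ZMod ℓ) (a : Slot) : dst (nx c a - y) ≤ dst (c - y) + 1 := by
  rcases mv_cases a with rfl | rfl | ⟨_, _, h⟩
  · rw [nx_right, show c + 1 - y = (c - y) + 1 by ring]; exact (dst_step_le hℓ _).1
  · rw [nx_left, show c - 1 - y = (c - y) - 1 by ring]; exact (dst_step_le hℓ _).2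
  · rw [nx_still c h]; omega

/-- the quadratic bump -/
noncomputable def gq (L : ℕ) (d : ℕ) : ℝ := (max 0 (1 - (d : ℝ) / L)) ^ 2

lemma gq_nonneg (L d : ℕ) : 0 ≤ gq L d := sq_nonneg _

lemma gq_zero (L : ℕ) : gq L 0 = 1 := by simp [gq]

lemma gq_far {L d : ℕ} (hL : 1 ≤ L) (h : L ≤ d) : gq L d = 0 := by
  unfold gq
  have hL' : (0 : ℝ) < L := by exact_mod_cast hL
  have : (1 : ℝ) ≤ d / L := by rw [le_div_iff₀ hL']; simpa using (by exact_mod_cast h : (L : ℝ) ≤ d)
  rw [max_eq_left (by linarith)]; simp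

lemma gq_le_one (L d : ℕ) : gq L d ≤ 1 := by
  unfold gq
  have h1 : max 0 (1 - (d : ℝ) / L) ≤ 1 := max_le (by norm_num) (by
    have : (0:ℝ) ≤ d / L := by positivity
    linarith)
  have h0 : 0 ≤ max 0 (1 - (d : ℝ) / L) := le_max_left _ _
  nlinarith

lemma gq_near {L d : ℕ} (hL : 1 ≤ L) (h : d ≤ L) : gq L d = (1 - (d : ℝ) / L) ^ 2 := by
  unfold gq
  have hL' : (0 : ℝ) < L := by exact_mod_cast hL
  have : (d : ℝ) / L ≤ 1 := by rw [div_le_one hL']; exact_mod_cast h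
  rw [max_eq_right (by linarith)]

lemma gq_second {L d : ℕ} (hL : 1 ≤ L) (h0 : 0 < d) (h : d ≤ L) :
    gq L (d + 1) + gq L (d - 1) ≤ 2 * gq L d + 2 / (L : ℝ) ^ 2 := by
  have hL' : (0 : ℝ) < L := by exact_mod_cast hL
  rw [gq_near hL h, gq_near hL (by omega : d - 1 ≤ L)]
  have h1 : gq L (d + 1) ≤ (1 - ((d + 1 : ℕ) : ℝ) / L) ^ 2 := by
    unfold gq
    rcases le_total 0 (1 - ((d + 1 : ℕ) : ℝ) / L) with h | h
    · rw [max_eq_right h]
    · rw [max_eq_left h]; nlinarith [sq_nonneg (1 - ((d + 1 : ℕ) : ℝ) / L)]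
  have h2 : ((d - 1 : ℕ) : ℝ) = d - 1 := by rw [Nat.cast_sub h0]; simp
  rw [h2]
  push_cast at h1
  have : (1 - ((d : ℝ) + 1) / L) ^ 2 + (1 - ((d : ℝ) - 1) / L) ^ 2 =
      2 * (1 - (d : ℝ) / L) ^ 2 + 2 / (L : ℝ) ^ 2 := by
    field_simp; ring
  linarith

/-- one step of the bump -/
lemma bump_step {L : ℕ} (hL : 1 ≤ L) (hℓ : 2 * L + 2 ≤ ℓ) (c y : ZMod ℓ) (hc : c ≠ y)
    (G : Slot → ℝ) (α : ℝ) (hα : 0 ≤ α) (hG : ∀ a, G a = α * gq L (dst (nx c a - y))) :
    (∑ a : Slot, G a) / 14 ≤ α * gq L (dst (c - y)) + α * (1 / (7 * (L : ℝ) ^ 2)) := by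
  have : NeZero ℓ := ⟨by omega⟩
  have hL' : (0 : ℝ) < L := by exact_mod_cast hL
  have h1 := sum_letters_le G (G (0, true)) (G (1, true)) (α * gq L (dst (c - y))) le_rfl le_rfl
    (fun a ha => by rw [hG a, nx_still c ha])
  have hr : nx c (0, true) - y = (c - y) + 1 := by rw [nx_right]; ring
  have hl : nx c (1, true) - y = (c - y) - 1 := by rw [nx_left]; ring
  have h2 : G (0, true) + G (1, true) ≤ 2 * (α * gq L (dst (c - y))) + α * (2 / (L : ℝ) ^ 2) := by
    rw [hG (0, true), hG (1, true), hr, hl]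
    rcases le_or_gt (dst (c - y)) L with h | h
    · have h3 := dst_nbr hℓ (c - y) (sub_ne_zero.2 hc) h (gq L)
      have hpos : 0 < dst (c - y) := Nat.pos_of_ne_zero fun h0 =>
        sub_ne_zero.2 hc ((dst_eq_zero_iff _).1 h0)
      have h4 := gq_second hL hpos h
      nlinarith
    · obtain ⟨h3, h4⟩ := dst_far hℓ (c - y) h
      rw [gq_far hL h3, gq_far hL h4]
      have := gq_nonneg L (dst (c - y))
      have h5 : 0 ≤ α * (2 / (L : ℝ) ^ 2) := by positivity
      nlinarith [mul_nonneg hα this]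
  have h3 : α * (1 / (7 * (L : ℝ) ^ 2)) = α * (2 / (L : ℝ) ^ 2) / 14 := by
    field_simp; ring
  rw [h3]
  linarith

/-- linear potential -/
noncomputable def lin (L : ℕ) (α : ℝ) (d : ℕ) : ℝ := d / L + (1 - d / L) * α

/-- `β q` -/
noncomputable def be (n q : ℕ) : ℝ := (14 ^ q - 1) / (14 ^ n - 1)

/-- potential of the active states -/
noncomputable def Ua (L n : ℕ) (α : ℝ) (d q : ℕ) : ℝ := if d = 0 then α * (1 - be n q) else lin L α d

lemma be_zero (n : ℕ) : be n 0 = 0 := by simp [be]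

lemma pow_gt_one {n : ℕ} (hn : 0 < n) : (1 : ℝ) < 14 ^ n := one_lt_pow₀ (by norm_num) (by omega)

lemma be_self {n : ℕ} (hn : 0 < n) : be n n = 1 := by
  unfold be
  have := pow_gt_one hn
  rw [div_self (by linarith)]

lemma be_le_one {n q : ℕ} (hn : 0 < n) (hq : q ≤ n) : be n q ≤ 1 := by
  unfold be
  have := pow_gt_one hn
  rw [div_le_one (by linarith)]
  have : (14 : ℝ) ^ q ≤ 14 ^ n := pow_le_pow_right₀ (by norm_num) hq
  linarith

lemma be_nonneg {n : ℕ} (hn : 0 < n) (q : ℕ) : 0 ≤ be n q := by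
  unfold be
  have := pow_gt_one hn
  have : (1 : ℝ) ≤ 14 ^ q := one_le_pow₀ (by norm_num)
  apply div_nonneg <;> linarith

lemma be_succ {n : ℕ} (hn : 0 < n) (q : ℕ) : 14 * be n q + 2 / 14 ^ n ≤ be n (q + 1) := by
  unfold be
  have h := pow_gt_one hn
  have h1 : (0:ℝ) < 14 ^ n - 1 := by linarith
  have h2 : (0:ℝ) < 14 ^ n := by linarith
  have h3 : (2:ℝ) / 14 ^ n ≤ 13 / (14 ^ n - 1) := by
    rw [div_le_div_iff₀ h2 h1]; linarith
  calc 14 * (((14:ℝ) ^ q - 1) / (14 ^ n - 1)) + 2 / 14 ^ n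
      ≤ 14 * (((14:ℝ) ^ q - 1) / (14 ^ n - 1)) + 13 / (14 ^ n - 1) := by linarith
    _ = (14 ^ (q + 1) - 1) / (14 ^ n - 1) := by
      rw [pow_succ]; field_simp; ring

lemma lin_zero (L : ℕ) (α : ℝ) : lin L α 0 = α := by simp [lin]

lemma lin_self {L : ℕ} (hL : 1 ≤ L) (α : ℝ) : lin L α L = 1 := by
  have hL' : (L : ℝ) ≠ 0 := by positivity
  simp [lin, hL']

lemma lin_nonneg {L : ℕ} (hL : 1 ≤ L) {α : ℝ} (hα : 0 ≤ α) {d : ℕ} (hd : d ≤ L) :
    0 ≤ lin L α d := by
  have hL' : (0 : ℝ) < L := by exact_mod_cast hL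
  unfold lin
  have h1 : (d : ℝ) / L ≤ 1 := by rw [div_le_one hL']; exact_mod_cast hd
  have h2 : (0 : ℝ) ≤ d / L := by positivity
  nlinarith

/-- one step of an active state -/
lemma act_step {L : ℕ} (hL : 1 ≤ L) (hℓ : 2 * L + 2 ≤ ℓ) (W : Pat) (c y : ZMod ℓ) (q : ℕ)
    (hd : dst (c - y) < L) (hq : q < W.n) (hqc : 0 < q → c = y) (α : ℝ)
    (hα : α = 14 ^ W.n / L) (V : Slot → ℝ)
    (h1 : ∀ a, c = y → W.P q a → V a = α * (1 - be W.n (q + 1)))
    (h2 : ∀ a, ¬ (c = y ∧ W.P q a) → V a = lin L α (dst (nx c a - y))) :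
    (∑ a : Slot, V a) / 14 ≤ Ua L W.n α (dst (c - y)) q := by
  have : NeZero ℓ := ⟨by omega⟩
  have hL' : (0 : ℝ) < L := by exact_mod_cast hL
  have hκ : (0 : ℝ) < 14 ^ W.n := by positivity
  have hα0 : 0 < α := by rw [hα]; positivity
  have hr : nx c (0, true) - y = (c - y) + 1 := by rw [nx_right]; ring
  have hl : nx c (1, true) - y = (c - y) - 1 := by rw [nx_left]; ring
  have hst : ∀ a, W.P q a → mv a = 0 := fun a ha => W.still q hq a ha
  have hn0 : ¬ (c = y ∧ W.P q (0, true)) := fun h => by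
    have := hst _ h.2; simp [mv_zero_true] at this
  have hn1 : ¬ (c = y ∧ W.P q (1, true)) := fun h => by
    have := hst _ h.2; simp [mv_one_true] at this
  by_cases hc : c = y
  · subst hc
    have hd0 : dst (c - c) = 0 := by simp [dst]
    have hU : Ua L W.n α (dst (c - c)) q = α * (1 - be W.n q) := by rw [hd0]; simp [Ua]
    rw [hU]
    obtain ⟨a0, ha0⟩ := W.ex q hq
    have hV0 : V (0, true) = lin L α 1 := by
      rw [h2 _ hn0, hr, sub_self, dst_zero_add_one (by omega)]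
    have hV1 : V (1, true) = lin L α 1 := by
      rw [h2 _ hn1, hl, sub_self, dst_zero_sub_one (by omega)]
    have hb1 := be_nonneg W.pos (q + 1)
    have hs := sum_letters_le' V (lin L α 1) (lin L α 1) α (α * (1 - be W.n (q + 1)))
      hV0.le hV1.le (fun a ha => by
        by_cases hP : W.P q a
        · rw [h1 a rfl hP]; nlinarith
        · rw [h2 a (fun h => hP h.2), nx_still c ha, hd0, lin_zero]) a0 (hst a0 ha0)
      (h1 a0 rfl ha0).le
    have hb := be_succ W.pos q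
    have hl1 : lin L α 1 ≤ 1 / L + α := by
      unfold lin; push_cast
      have : 0 ≤ (1 : ℝ) / L * α := by positivity
      nlinarith
    have hαk : 1 / (L : ℝ) = α * (1 / 14 ^ W.n) := by
      rw [hα]; field_simp
    have hb2 : α * (14 * be W.n q + 2 / 14 ^ W.n) ≤ α * be W.n (q + 1) :=
      mul_le_mul_of_nonneg_left hb hα0.le
    have : α * (2 / 14 ^ W.n) = 2 * (1 / (L : ℝ)) := by rw [hαk]; ring
    rw [div_le_iff₀ (by norm_num)]
    nlinarith
  · have hq0 : q = 0 := by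
      rcases Nat.eq_zero_or_pos q with h | h
      · exact h
      · exact absurd (hqc h) hc
    have hd0 : dst (c - y) ≠ 0 := fun h => hc (sub_eq_zero.1 ((dst_eq_zero_iff _).1 h))
    have hU : Ua L W.n α (dst (c - y)) q = lin L α (dst (c - y)) := by simp [Ua, hd0]
    rw [hU]
    have hV : ∀ a, V a = lin L α (dst (nx c a - y)) := fun a => h2 a (fun h => hc h.1)
    have hs := sum_letters_le V (V (0, true)) (V (1, true)) (lin L α (dst (c - y))) le_rfl le_rfl
      (fun a ha => by rw [hV a, nx_still c ha])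
    have h3 := dst_nbr hℓ (c - y) (sub_ne_zero.2 hc) hd.le (lin L α)
    rw [← hr, ← hl, ← hV, ← hV] at h3
    have h4 : lin L α (dst (c - y) + 1) + lin L α (dst (c - y) - 1) = 2 * lin L α (dst (c - y)) := by
      have h5 : ((dst (c - y) - 1 : ℕ) : ℝ) = (dst (c - y) : ℝ) - 1 := by
        rw [Nat.cast_sub (by omega)]; simp
      unfold lin
      rw [h5]
      push_cast
      ring
    rw [div_le_iff₀ (by norm_num)]
    linarith

end Pool.Agent.Helper55.PC.Cl
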